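import Mathlib
import Pool.Agent.Lib.MP_55d555_gt.VertStar
import Pool.Agent.Lib.MP_55d555_gt.Config
import Pool.Agent.Lib.MP_55d555_gt.Handlebody
import Pool.Agent.Lib.MP_55d555_gt.Top

section

set_option autoImplicit false
set_option linter.unusedSectionVars false

/-!
Counting along circles: the alternating sum of one-sided values vanishes.
-/

namespace Pool.Agent.Lib.MP_55d555_gt

open Set Topology Filter

theorem const_of_local {X : Type*} [TopologicalSpace X] {s : Set X} (hs : IsPreconnected s)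
    {V : X → ℝ} (h : ∀ w ∈ s, ∀ᶠ w' in 𝓝 w, V w' = V w) {x y : X} (hx : x ∈ s) (hy : y ∈ s) :
    V x = V y := by
  by_contra hne
  have hu : IsOpen {w | ∀ᶠ w' in 𝓝 w, V w' = V x} := isOpen_setOfPred_eventually_nhds
  have hv : IsOpen {w | ∀ᶠ w' in 𝓝 w, V w' ≠ V x} := isOpen_setOfPred_eventually_nhds
  obtain ⟨z, _, hz1, hz2⟩ := hs _ _ hu hv (fun w hw => by
    by_cases hwx : V w = V x
    · left
      filter_upwards [h w hw] with w' hw'
      rw [hw', hwx]
    · right
      filter_upwards [h w hw] with w' hw'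
      rw [hw']
      exact hwx) ⟨x, hx, h x hx⟩ ⟨y, hy, by
        filter_upwards [h y hy] with w' hw'
        rw [hw']
        exact fun e => hne e.symm⟩
  exact hz2.self_of_nhds hz1.self_of_nhds

section Circle

variable {n : ℕ} {Cr : Set (Fin n × UnitAddCircle)}

theorem exists_next (hfin : Cr.Finite) {i : Fin n} {a : ℝ} (ha : (i, (a : UnitAddCircle)) ∈ Cr) :
    ∃ b : ℝ, a < b ∧ b ≤ a + 1 ∧ (i, (b : UnitAddCircle)) ∈ Cr ∧
      ∀ w ∈ Ioo a b, (i, (w : UnitAddCircle)) ∉ Cr := by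
  let K : Set ℝ := {b | b ∈ Ioc a (a + 1) ∧ (i, (b : UnitAddCircle)) ∈ Cr}
  have hK : K.Finite := by
    have hinj : InjOn (fun b : ℝ => (i, (b : UnitAddCircle))) (Ioc a (a + 1)) := by
      intro x hx y hy hxy
      simp only [Prod.mk.injEq, true_and] at hxy
      have h1 : ((x - y : ℝ) : UnitAddCircle) = 0 := by
        rw [AddCircle.coe_sub, hxy, sub_self]
      rw [AddCircle.coe_eq_zero_iff] at h1
      obtain ⟨m, hm⟩ := h1
      simp only [zsmul_eq_mul, mul_one] at hm
      have h2 : (m : ℝ) < 1 := by rw [hm]; linarith [hx.2, hy.1]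
      have h3 : (-1 : ℝ) < m := by rw [hm]; linarith [hx.1, hy.2]
      have h4 : m = 0 := by
        have h2' : m < 1 := by exact_mod_cast h2
        have h3' : -1 < m := by exact_mod_cast h3
        omega
      rw [h4] at hm
      simp only [Int.cast_zero] at hm
      linarith
    refine Finite.of_finite_image (f := fun b : ℝ => (i, (b : UnitAddCircle))) ?_
      (hinj.mono fun b hb => hb.1)
    apply hfin.subset
    rintro _ ⟨b, hb, rfl⟩
    exact hb.2
  have hne : K.Nonempty := ⟨a + 1, ⟨by constructor <;> linarith, by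
    have : ((a + 1 : ℝ) : UnitAddCircle) = a := by simp
    rw [this]; exact ha⟩⟩
  obtain ⟨b, hb, hmin⟩ := Set.exists_min_image K id hK hne
  refine ⟨b, hb.1.1, hb.1.2, hb.2, fun w hw hw' => ?_⟩
  have := hmin w ⟨⟨hw.1, (hw.2.le).trans hb.1.2⟩, hw'⟩
  simp only [id] at this
  exact absurd hw.2 (not_lt.2 this)

/-- sign of a crossing parameter -/
noncomputable def sgn (ov : Fin n × UnitAddCircle → Prop) (τ : Fin n × UnitAddCircle) : ℝ :=
  open Classical in if ov τ then 1 else -1

/-- The alternating sum of the one-sided values vanishes. -/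
theorem sum_sgn_eq_zero (hfin : Cr.Finite) [Fintype Cr]
    {V VR VL : Fin n × UnitAddCircle → ℝ} {ov : Fin n × UnitAddCircle → Prop}
    (h1 : ∀ (i : Fin n) (a : ℝ), (i, (a : UnitAddCircle)) ∉ Cr →
      ∀ᶠ w : ℝ in 𝓝 a, V (i, (w : UnitAddCircle)) = V (i, (a : UnitAddCircle)))
    (hR : ∀ (i : Fin n) (a : ℝ), (i, (a : UnitAddCircle)) ∈ Cr →
      ∀ᶠ w : ℝ in 𝓝[>] a, V (i, (w : UnitAddCircle)) = VR (i, (a : UnitAddCircle)))
    (hL : ∀ (i : Fin n) (a : ℝ), (i, (a : UnitAddCircle)) ∈ Cr →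
      ∀ᶠ w : ℝ in 𝓝[<] a, V (i, (w : UnitAddCircle)) = VL (i, (a : UnitAddCircle)))
    (halt : ∀ (i : Fin n) (a b : ℝ), a < b → b ≤ a + 1 → (i, (a : UnitAddCircle)) ∈ Cr →
      (i, (b : UnitAddCircle)) ∈ Cr → (∀ w ∈ Ioo a b, (i, (w : UnitAddCircle)) ∉ Cr) →
      (ov (i, (a : UnitAddCircle)) ↔ ¬ ov (i, (b : UnitAddCircle)))) :
    ∑ τ : Cr, sgn ov τ * (VR τ + VL τ) = 0 := by
  classical
  have hrep : ∀ τ : Cr, ∃ a : ℝ, (τ : Fin n × UnitAddCircle) = (τ.1.1, (a : UnitAddCircle)) := by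
    rintro ⟨⟨i, c⟩, hc⟩
    obtain ⟨a, ha⟩ := QuotientAddGroup.mk_surjective c
    exact ⟨a, Prod.ext rfl ha.symm⟩
  choose a ha using hrep
  have hmem : ∀ τ : Cr, (τ.1.1, (a τ : UnitAddCircle)) ∈ Cr := fun τ => by
    rw [← ha τ]; exact τ.2
  choose b hab hb1 hbC hfree using fun τ : Cr => exists_next hfin (hmem τ)
  let nx : Cr → Cr := fun τ => ⟨(τ.1.1, (b τ : UnitAddCircle)), hbC τ⟩
  have hinj : Function.Injective nx := by
    intro τ τ' he
    have he' : (τ.1.1, (b τ : UnitAddCircle)) = (τ'.1.1, (b τ' : UnitAddCircle)) :=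
      congrArg Subtype.val he
    simp only [Prod.mk.injEq] at he'
    obtain ⟨hi, hbb⟩ := he'
    have h2 : ((b τ - b τ' : ℝ) : UnitAddCircle) = 0 := by
      rw [AddCircle.coe_sub, hbb, sub_self]
    rw [AddCircle.coe_eq_zero_iff] at h2
    obtain ⟨m, hm⟩ := h2
    simp only [zsmul_eq_mul, mul_one] at hm
    have hshift : ∀ w : ℝ, ((w + m : ℝ) : UnitAddCircle) = (w : UnitAddCircle) := by
      intro w
      rw [AddCircle.coe_add]
      have : ((m : ℝ) : UnitAddCircle) = 0 := by
        rw [AddCircle.coe_eq_zero_iff]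
        exact ⟨m, by simp⟩
      rw [this, add_zero]
    have hlt : a τ' + m < b τ := by
      have := hab τ'
      linarith
    have hval : a τ = a τ' + m := by
      rcases lt_trichotomy (a τ) (a τ' + m) with h | h | h
      · exfalso
        apply hfree τ (a τ' + m) ⟨h, hlt⟩
        rw [hshift, hi]
        exact hmem τ'
      · exact h
      · exfalso
        apply hfree τ' (a τ - m) ⟨by linarith, by linarith [hab τ]⟩
        have : ((a τ - m : ℝ) : UnitAddCircle) = (a τ : UnitAddCircle) := by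
          have h3 := hshift (a τ - m)
          rw [sub_add_cancel] at h3
          exact h3.symm
        rw [this, ← hi]
        exact hmem τ
    apply Subtype.ext
    rw [ha τ, ha τ', hi, hval, hshift]
  have hbij : Function.Bijective nx := Finite.injective_iff_bijective.1 hinj
  let e : Cr ≃ Cr := Equiv.ofBijective nx hbij
  have hsg : ∀ τ : Cr, sgn ov (nx τ) = -sgn ov τ := by
    intro τ
    have h3 := halt τ.1.1 (a τ) (b τ) (hab τ) (hb1 τ) (hmem τ) (hbC τ) (hfree τ)
    have h4 : (nx τ : Fin n × UnitAddCircle) = (τ.1.1, (b τ : UnitAddCircle)) := rfl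
    rw [← ha τ, ← h4] at h3
    unfold sgn
    by_cases h5 : ov τ
    · rw [if_pos h5, if_neg (h3.1 h5)]
    · have h6 : ov (nx τ) := by
        by_contra h7
        exact h5 (h3.2 h7)
      rw [if_neg h5, if_pos h6, neg_neg]
  have hval : ∀ τ : Cr, VR τ = VL (nx τ) := by
    intro τ
    have e1 := hR τ.1.1 (a τ) (hmem τ)
    have e2 := hL τ.1.1 (b τ) (hbC τ)
    have e3 : ∀ᶠ w in 𝓝[>] (a τ), w ∈ Ioo (a τ) (b τ) := Ioo_mem_nhdsGT (hab τ)
    have e4 : ∀ᶠ w in 𝓝[<] (b τ), w ∈ Ioo (a τ) (b τ) := Ioo_mem_nhdsLT (hab τ)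
    obtain ⟨w1, hw1, hw1'⟩ := (e1.and e3).exists
    obtain ⟨w2, hw2, hw2'⟩ := (e2.and e4).exists
    have hc := const_of_local (V := fun w : ℝ => V (τ.1.1, (w : UnitAddCircle)))
      (isPreconnected_Ioo (a := a τ) (b := b τ)) (fun w hw => h1 _ _ (hfree τ w hw)) hw1' hw2'
    rw [hw1, hw2, ← ha τ] at hc
    exact hc
  have hsum : ∑ τ : Cr, sgn ov τ * VL τ = ∑ τ : Cr, sgn ov (nx τ) * VL (nx τ) :=
    (Equiv.sum_comp e (fun τ : Cr => sgn ov τ * VL τ)).symm
  have h5 : ∑ τ : Cr, sgn ov (nx τ) * VL (nx τ) = -∑ τ : Cr, sgn ov τ * VR τ := by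
    rw [← Finset.sum_neg_distrib]
    apply Finset.sum_congr rfl
    intro τ _
    rw [hsg, hval]
    ring
  have h6 : ∑ τ : Cr, sgn ov τ * (VR τ + VL τ)
      = ∑ τ : Cr, sgn ov τ * VR τ + ∑ τ : Cr, sgn ov τ * VL τ := by
    rw [← Finset.sum_add_distrib]
    apply Finset.sum_congr rfl
    intro τ _
    ring
  rw [h6, hsum, h5]
  ring

/-- If at each crossing the value on the under strand is at least the value on the over strand,
then by the vanishing alternating sum all the values agree. -/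
theorem eq_of_alternating (hfin : Cr.Finite)
    {V VR VL : Fin n × UnitAddCircle → ℝ} {ov : Fin n × UnitAddCircle → Prop}
    (h1 : ∀ (i : Fin n) (a : ℝ), (i, (a : UnitAddCircle)) ∉ Cr →
      ∀ᶠ w : ℝ in 𝓝 a, V (i, (w : UnitAddCircle)) = V (i, (a : UnitAddCircle)))
    (hR : ∀ (i : Fin n) (a : ℝ), (i, (a : UnitAddCircle)) ∈ Cr →
      ∀ᶠ w : ℝ in 𝓝[>] a, V (i, (w : UnitAddCircle)) = VR (i, (a : UnitAddCircle)))
    (hL : ∀ (i : Fin n) (a : ℝ), (i, (a : UnitAddCircle)) ∈ Cr →
      ∀ᶠ w : ℝ in 𝓝[<] a, V (i, (w : UnitAddCircle)) = VL (i, (a : UnitAddCircle)))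
    (halt : ∀ (i : Fin n) (a b : ℝ), a < b → b ≤ a + 1 → (i, (a : UnitAddCircle)) ∈ Cr →
      (i, (b : UnitAddCircle)) ∈ Cr → (∀ w ∈ Ioo a b, (i, (w : UnitAddCircle)) ∉ Cr) →
      (ov (i, (a : UnitAddCircle)) ↔ ¬ ov (i, (b : UnitAddCircle))))
    (oth : Cr → Cr) (hinv : ∀ τ, oth (oth τ) = τ) (hov : ∀ τ : Cr, ov (oth τ) ↔ ¬ ov τ)
    (hle : ∀ τ : Cr, ov τ → VR τ + VL τ ≤ VR (oth τ) + VL (oth τ)) (τ : Cr) :
    VR τ + VL τ = VR (oth τ) + VL (oth τ) := by
  classical
  have : Fintype Cr := hfin.fintype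
  have h0 := sum_sgn_eq_zero hfin h1 hR hL halt
  let e : Cr ≃ Cr := ⟨oth, oth, hinv, hinv⟩
  have hsg : ∀ τ : Cr, sgn ov (oth τ) = -sgn ov τ := by
    intro τ
    unfold sgn
    by_cases h5 : ov τ
    · have : ¬ ov (oth τ) := by rw [hov]; exact fun h => h h5
      rw [if_pos h5, if_neg this]
    · have : ov (oth τ) := (hov τ).2 h5
      rw [if_neg h5, if_pos this, neg_neg]
  have hsum : ∑ τ : Cr, sgn ov (oth τ) * (VR (oth τ) + VL (oth τ)) = 0 := by
    rw [← h0]
    exact Equiv.sum_comp e (fun τ : Cr => sgn ov τ * (VR τ + VL τ))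
  have hzero : ∑ τ : Cr, sgn ov τ * ((VR (oth τ) + VL (oth τ)) - (VR τ + VL τ)) = 0 := by
    have : ∀ τ ∈ (Finset.univ : Finset Cr),
        sgn ov τ * ((VR (oth τ) + VL (oth τ)) - (VR τ + VL τ))
        = -(sgn ov (oth τ) * (VR (oth τ) + VL (oth τ))) - sgn ov τ * (VR τ + VL τ) := by
      intro τ _
      rw [hsg]; ring
    rw [Finset.sum_congr rfl this, Finset.sum_sub_distrib, Finset.sum_neg_distrib, hsum, h0]
    ring
  have hnn : ∀ τ ∈ (Finset.univ : Finset Cr),
      0 ≤ sgn ov τ * ((VR (oth τ) + VL (oth τ)) - (VR τ + VL τ)) := by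
    intro τ _
    by_cases h5 : ov τ
    · have : sgn ov τ = 1 := by unfold sgn; rw [if_pos h5]
      rw [this, one_mul]
      have := hle τ h5
      linarith
    · have h6 : sgn ov τ = -1 := by unfold sgn; rw [if_neg h5]
      rw [h6]
      have h7 := hle (oth τ) ((hov τ).2 h5)
      rw [hinv] at h7
      linarith
  have := (Finset.sum_eq_zero_iff_of_nonneg hnn).1 hzero τ (Finset.mem_univ _)
  have hne : sgn ov τ ≠ 0 := by
    unfold sgn
    split_ifs <;> norm_num
  have h8 := (mul_eq_zero.1 this).resolve_left hne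
  linarith

end Circle

end Pool.Agent.Lib.MP_55d555_gt
end

section

set_option autoImplicit false
set_option linter.unusedSectionVars false

/-!
A closed set in a connected compact surface whose complement is a union of open disks is
connected.
-/

namespace Pool.Agent.Lib.MP_55d555_gt

open Set Topology

theorem preconnected_box_compl (R : ℝ) :
    IsPreconnected {q : ℝ × ℝ | R < q.1 ∨ R < q.2 ∨ q.1 < -R ∨ q.2 < -R} := by
  have e : {q : ℝ × ℝ | R < q.1 ∨ R < q.2 ∨ q.1 < -R ∨ q.2 < -R} =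
      ((Ioi R ×ˢ univ) ∪ (univ ×ˢ Ioi R)) ∪ ((Iio (-R) ×ˢ univ) ∪ (univ ×ˢ Iio (-R))) := by
    ext q
    simp [or_assoc]
  rw [e]
  have c1 : IsPreconnected ((Ioi R ×ˢ univ : Set (ℝ × ℝ))) :=
    ((convex_Ioi R).prod convex_univ).isPreconnected
  have c2 : IsPreconnected ((univ ×ˢ Ioi R : Set (ℝ × ℝ))) :=
    (convex_univ.prod (convex_Ioi R)).isPreconnected
  have c3 : IsPreconnected ((Iio (-R) ×ˢ univ : Set (ℝ × ℝ))) :=
    ((convex_Iio (-R)).prod convex_univ).isPreconnected
  have c4 : IsPreconnected ((univ ×ˢ Iio (-R) : Set (ℝ × ℝ))) :=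
    (convex_univ.prod (convex_Iio (-R))).isPreconnected
  have d1 := IsPreconnected.union (R + 1, R + 1) (by simp) (by simp) c1 c2
  have d2 := IsPreconnected.union (-R - 1, -R - 1) (by simp) (by simp) c3 c4
  exact IsPreconnected.union (-R - 1, R + 1) (by simp) (by simp) d1 d2

variable {F : Type*} [TopologicalSpace F] [T2Space F] [CompactSpace F] [ConnectedSpace F]
  [LocallyConnectedSpace F] {D : Set F}

theorem closure_face_inter (x : F) :
    closure (connectedComponentIn Dᶜ x) ∩ Dᶜ ⊆ connectedComponentIn Dᶜ x := by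
  rintro y ⟨hy1, hy2⟩
  by_cases hx : x ∈ Dᶜ
  · have hpre : IsPreconnected (connectedComponentIn Dᶜ x ∪ {y}) := by
      apply isPreconnected_connectedComponentIn.subset_closure subset_union_left
      rintro z (hz | hz)
      · exact subset_closure hz
      · rw [mem_singleton_iff.1 hz]; exact hy1
    have hsub : connectedComponentIn Dᶜ x ∪ {y} ⊆ Dᶜ := by
      rintro z (hz | hz)
      · exact connectedComponentIn_subset _ _ hz
      · rw [mem_singleton_iff.1 hz]; exact hy2
    exact hpre.subset_connectedComponentIn (Or.inl (mem_connectedComponentIn hx)) hsub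
      (Or.inr rfl)
  · rw [connectedComponentIn_eq_empty hx, closure_empty] at hy1
    exact absurd hy1 (notMem_empty _)

theorem closure_face_meets (hD : IsClosed D) (hne : D.Nonempty) {x : F} (hx : x ∉ D) :
    (closure (connectedComponentIn Dᶜ x) ∩ D).Nonempty := by
  by_contra hcon
  rw [not_nonempty_iff_eq_empty] at hcon
  have hcl : IsClosed (connectedComponentIn Dᶜ x) := by
    rw [← closure_subset_iff_isClosed]
    intro y hy
    apply closure_face_inter x
    refine ⟨hy, fun hyD => ?_⟩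
    have : y ∈ closure (connectedComponentIn Dᶜ x) ∩ D := ⟨hy, hyD⟩
    rw [hcon] at this
    exact this
  have hop : IsOpen (connectedComponentIn Dᶜ x) := hD.isOpen_compl.connectedComponentIn
  have huniv := IsClopen.eq_univ ⟨hcl, hop⟩ ⟨x, mem_connectedComponentIn hx⟩
  obtain ⟨y, hy⟩ := hne
  have : y ∈ connectedComponentIn Dᶜ x := by rw [huniv]; exact mem_univ _
  exact connectedComponentIn_subset _ _ this hy

/-- The frontier of a disk face lies on one side of any separation. -/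
theorem closure_face_one_side {O O' : Set F} (hO : IsOpen O) (hO' : IsOpen O')
    (hdis : Disjoint O O') (hDO : D ⊆ O ∪ O') {x : F} (hx : x ∉ D)
    (hcell : Nonempty (connectedComponentIn Dᶜ x ≃ₜ ℝ × ℝ)) :
    closure (connectedComponentIn Dᶜ x) ∩ D ⊆ O ∨
      closure (connectedComponentIn Dᶜ x) ∩ D ⊆ O' := by
  obtain ⟨φ⟩ := hcell
  set C := connectedComponentIn Dᶜ x with hC
  have hK : IsCompact (closure C \ (O ∪ O')) := by
    apply isClosed_closure.isCompact.of_isClosed_subset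
    · exact isClosed_closure.sdiff (hO.union hO')
    · exact diff_subset
  have hKC : closure C \ (O ∪ O') ⊆ C := by
    rintro y ⟨hy1, hy2⟩
    exact closure_face_inter x ⟨hy1, fun h => hy2 (hDO h)⟩
  -- the image of the compact part is bounded
  have hK' : IsCompact (((↑) : C → F) ⁻¹' (closure C \ (O ∪ O'))) := by
    rw [Topology.IsInducing.subtypeVal.isCompact_preimage_iff]
    · exact hK
    · rw [Subtype.range_coe]
      exact hKC
  have hb := (hK'.image φ.continuous).isBounded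
  obtain ⟨R, hR⟩ := hb.exists_norm_le
  let E : Set C := φ ⁻¹' {q : ℝ × ℝ | R < q.1 ∨ R < q.2 ∨ q.1 < -R ∨ q.2 < -R}
  have hE : IsPreconnected (((↑) : C → F) '' E) := by
    apply IsPreconnected.image _ _ continuous_subtype_val.continuousOn
    have := (preconnected_box_compl R).image φ.symm φ.symm.continuous.continuousOn
    rwa [Homeomorph.image_symm] at this
  have hEsub : ((↑) : C → F) '' E ⊆ O ∪ O' := by
    rintro _ ⟨y, hy, rfl⟩
    by_contra hcon
    have hyK : y ∈ ((↑) : C → F) ⁻¹' (closure C \ (O ∪ O')) := ⟨subset_closure y.2, hcon⟩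
    have h1 := hR _ ⟨y, hyK, rfl⟩
    have h2 : |(φ y).1| ≤ R := (norm_fst_le (φ y)).trans h1
    have h3 : |(φ y).2| ≤ R := (norm_snd_le (φ y)).trans h1
    rw [abs_le] at h2 h3
    rcases hy with h | h | h | h <;> linarith [h2.1, h2.2, h3.1, h3.2]
  -- the bounded part of the face is compact
  have hBc : IsClosed (((↑) : C → F) '' Eᶜ) := by
    have : IsCompact Eᶜ := by
      have h1 : Eᶜ = φ ⁻¹' (Icc (-R) R ×ˢ Icc (-R) R) := by
        ext y
        simp only [E, mem_compl_iff, mem_preimage, mem_ofPred_eq, mem_prod, mem_Icc]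
        push Not
        constructor
        · rintro ⟨a1, a2, a3, a4⟩
          exact ⟨⟨a3, a1⟩, ⟨a4, a2⟩⟩
        · rintro ⟨⟨a3, a1⟩, ⟨a4, a2⟩⟩
          exact ⟨a1, a2, a3, a4⟩
      rw [h1, ← Homeomorph.image_symm]
      exact (isCompact_Icc.prod isCompact_Icc).image φ.symm.continuous
    exact (this.image continuous_subtype_val).isClosed
  have hclC : closure C ⊆ closure (((↑) : C → F) '' E) ∪ C := by
    have h1 : C ⊆ (((↑) : C → F) '' E) ∪ (((↑) : C → F) '' Eᶜ) := by
      rw [← image_union, union_compl_self, image_univ, Subtype.range_coe]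
    have h2 := closure_mono h1
    rw [closure_union, hBc.closure_eq] at h2
    refine h2.trans (union_subset_union_right _ ?_)
    rintro _ ⟨y, _, rfl⟩
    exact y.2
  have key : ∀ {U U' : Set F}, IsOpen U' → Disjoint U U' → D ⊆ U ∪ U' →
      ((↑) : C → F) '' E ⊆ U → closure C ∩ D ⊆ U := by
    intro U U' hU' hd hDU hEU y hy
    rcases hDU hy.2 with h | h
    · exact h
    · exfalso
      rcases hclC hy.1 with h1 | h1
      · have h2 : y ∈ closure U := closure_mono hEU h1
        exact (hd.symm.closure_right hU').ne_of_mem h h2 rfl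
      · exact connectedComponentIn_subset _ _ h1 hy.2
  rcases hE.subset_or_subset hO hO' hdis hEsub with h | h
  · exact Or.inl (key hO' hdis hDO h)
  · right
    exact key hO hdis.symm (by rw [union_comm]; exact hDO) h

theorem preconnected_of_cellular (hD : IsClosed D)
    (hcell : ∀ x ∉ D, Nonempty (connectedComponentIn Dᶜ x ≃ₜ ℝ × ℝ)) : IsPreconnected D := by
  rw [isPreconnected_closed_iff]
  intro t t' ht ht' hDt hne hne'
  by_contra hcon
  rw [not_nonempty_iff_eq_empty] at hcon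
  set A := D ∩ t with hA
  set A' := D ∩ t' with hA'
  have hAc : IsClosed A := hD.inter ht
  have hAc' : IsClosed A' := hD.inter ht'
  have hdA : Disjoint A A' := by
    rw [disjoint_iff_inter_eq_empty, ← hcon]
    ext y
    simp only [hA, hA', mem_inter_iff]
    tauto
  have hDA : D = A ∪ A' := by
    ext y
    constructor
    · intro hy
      rcases hDt hy with h | h
      · exact Or.inl ⟨hy, h⟩
      · exact Or.inr ⟨hy, h⟩
    · rintro (h | h) <;> exact h.1
  obtain ⟨O, O', hO, hO', hAO, hAO', hOO'⟩ := normal_separation hAc hAc' hdA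
  have hneD : D.Nonempty := hne.mono inter_subset_left
  -- the two sides
  have hside : ∀ {B B' : Set F}, IsClosed B' → Disjoint B B' → D = B ∪ B' →
      IsOpen (B ∪ {x | x ∉ D ∧ (closure (connectedComponentIn Dᶜ x) ∩ B).Nonempty}) := by
    intro B B' hB' hd hDB
    rw [isOpen_iff_mem_nhds]
    rintro x (hx | ⟨hx, hx2⟩)
    · have hxB' : x ∈ B'ᶜ := fun h => (disjoint_left.1 hd) hx h
      have hW : connectedComponentIn B'ᶜ x ∈ 𝓝 x :=
        hB'.isOpen_compl.connectedComponentIn.mem_nhds (mem_connectedComponentIn hxB')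
      refine Filter.mem_of_superset hW ?_
      intro x' hx'
      by_cases hxD : x' ∈ D
      · left
        rw [hDB] at hxD
        exact hxD.resolve_right (connectedComponentIn_subset _ _ hx')
      · right
        refine ⟨hxD, ?_⟩
        by_contra hemp
        rw [not_nonempty_iff_eq_empty] at hemp
        set W := connectedComponentIn B'ᶜ x with hWdef
        have hWpre : IsPreconnected W := isPreconnected_connectedComponentIn
        set C := connectedComponentIn Dᶜ x' with hC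
        have hCop : IsOpen C := hD.isOpen_compl.connectedComponentIn
        have hcov : W ⊆ C ∪ (closure C)ᶜ := by
          intro w hw
          by_cases hwC : w ∈ closure C
          · left
            apply closure_face_inter x'
            refine ⟨hwC, fun hwD => ?_⟩
            rw [hDB] at hwD
            rcases hwD with h | h
            · have : w ∈ closure C ∩ B := ⟨hwC, h⟩
              rw [hemp] at this
              exact this
            · exact connectedComponentIn_subset _ _ hw h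
          · exact Or.inr hwC
        have hxC : x ∈ (closure C)ᶜ := by
          intro h
          have : x ∈ closure C ∩ B := ⟨h, hx⟩
          rw [hemp] at this
          exact this
        obtain ⟨w, _, hw1, hw2⟩ := hWpre _ _ hCop isClosed_closure.isOpen_compl hcov
          ⟨x', hx', mem_connectedComponentIn hxD⟩
          ⟨x, mem_connectedComponentIn hxB', hxC⟩
        exact hw2 (subset_closure hw1)
    · have hW : connectedComponentIn Dᶜ x ∈ 𝓝 x :=
        hD.isOpen_compl.connectedComponentIn.mem_nhds (mem_connectedComponentIn hx)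
      refine Filter.mem_of_superset hW ?_
      intro x' hx'
      right
      refine ⟨connectedComponentIn_subset _ _ hx', ?_⟩
      rwa [← connectedComponentIn_eq hx']
  have ho1 := hside hAc' hdA hDA
  have ho2 := hside (B := A') (B' := A) hAc hdA.symm (by rw [union_comm]; exact hDA)
  have hpre : IsPreconnected (univ : Set F) := isPreconnected_univ
  obtain ⟨y, _, hy1, hy2⟩ := hpre _ _ ho1 ho2 (by
    intro x _
    by_cases hxD : x ∈ D
    · rw [hDA] at hxD
      rcases hxD with h | h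
      · exact Or.inl (Or.inl h)
      · exact Or.inr (Or.inl h)
    · obtain ⟨w, hw1, hw2⟩ := closure_face_meets hD hneD hxD
      rw [hDA] at hw2
      rcases hw2 with h | h
      · exact Or.inl (Or.inr ⟨hxD, w, hw1, h⟩)
      · exact Or.inr (Or.inr ⟨hxD, w, hw1, h⟩))
    (by obtain ⟨w, hw⟩ := hne; exact ⟨w, mem_univ _, Or.inl hw⟩)
    (by obtain ⟨w, hw⟩ := hne'; exact ⟨w, mem_univ _, Or.inl hw⟩)
  have hDO : D ⊆ O ∪ O' := by
    rw [hDA]
    exact union_subset_union hAO hAO'
  rcases hy1 with h1 | ⟨h1, w, hw1, hw2⟩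
  · rcases hy2 with h2 | ⟨h2, _⟩
    · exact (disjoint_left.1 hdA) h1 h2
    · exact h2 h1.1
  · rcases hy2 with h2 | ⟨h2, w', hw1', hw2'⟩
    · exact h1 h2.1
    · rcases closure_face_one_side hO hO' hOO' hDO h1 (hcell y h1) with h3 | h3
      · exact (disjoint_left.1 hOO') (h3 ⟨hw1', hw2'.1⟩) (hAO' hw2')
      · exact (disjoint_left.1 hOO') (hAO hw2) (h3 ⟨hw1, hw2.1⟩)

end Pool.Agent.Lib.MP_55d555_gt
end

section

set_option autoImplicit false
set_option linter.unusedSectionVars false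

/-!
Model regions in `(ℝ × ℝ) × ℝ` for strands over the two coordinate axes.
-/

namespace Pool.Agent.Lib.MP_55d555_gt

open Set Topology

/-- above a strand over the horizontal axis -/
def rT1 (ta : ℝ → ℝ) : Set ((ℝ × ℝ) × ℝ) := {w | w.1.2 = 0 → ta w.1.1 < w.2}

/-- above both strands -/
def rT2 (ta tb : ℝ → ℝ) : Set ((ℝ × ℝ) × ℝ) :=
  {w | (w.1.2 = 0 → ta w.1.1 < w.2) ∧ (w.1.1 = 0 → tb w.1.2 < w.2)}

/-- below both strands -/
def rB2 (ta tb : ℝ → ℝ) : Set ((ℝ × ℝ) × ℝ) :=
  {w | (w.1.2 = 0 → w.2 < ta w.1.1) ∧ (w.1.1 = 0 → w.2 < tb w.1.2)}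

/-- between the strands: below the horizontal one and above the vertical one -/
def rN (ta tb : ℝ → ℝ) : Set ((ℝ × ℝ) × ℝ) :=
  {w | (w.1.2 = 0 → w.2 < ta w.1.1) ∧ (w.1.1 = 0 → tb w.1.2 < w.2)}

section

variable {ta tb : ℝ → ℝ} (hta : Continuous ta) (htb : Continuous tb)

theorem star_ineq_up {a s m τ : ℝ} (h1 : a < s) (h2 : a < m) (hτ : τ ∈ Icc (0 : ℝ) 1) :
    a < (1 - τ) * s + τ * m := by
  have e1 := hτ.1
  have e2 := hτ.2
  rcases eq_or_lt_of_le e1 with h | h
  · subst h; linarith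
  · nlinarith

theorem star_ineq_down {a s m τ : ℝ} (h1 : s < a) (h2 : m < a) (hτ : τ ∈ Icc (0 : ℝ) 1) :
    (1 - τ) * s + τ * m < a := by
  have e1 := hτ.1
  have e2 := hτ.2
  rcases eq_or_lt_of_le e1 with h | h
  · subst h; linarith
  · nlinarith

include hta in
theorem vs_T1 : VertStar (univ : Set (ℝ × ℝ)) (fun q => ta q.1 + 1) (rT1 ta) where
  cont := (by fun_prop : Continuous fun q : ℝ × ℝ => ta q.1 + 1).continuousOn
  proj := fun _ _ => mem_univ _
  sec := fun q _ _ => by simp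
  star := fun q s h τ hτ hv => star_ineq_up (h hv) (by simp) hτ

include hta htb in
theorem vs_T2 : VertStar (univ : Set (ℝ × ℝ)) (fun q => max (ta q.1) (tb q.2) + 1)
    (rT2 ta tb) where
  cont := (by fun_prop : Continuous fun q : ℝ × ℝ => max (ta q.1) (tb q.2) + 1).continuousOn
  proj := fun _ _ => mem_univ _
  sec := fun q _ => ⟨fun _ => lt_of_le_of_lt (le_max_left _ _) (lt_add_one _),
    fun _ => lt_of_le_of_lt (le_max_right _ _) (lt_add_one _)⟩
  star := fun q s h τ hτ =>
    ⟨fun hv => star_ineq_up (h.1 hv) (lt_of_le_of_lt (le_max_left _ _) (lt_add_one _)) hτ,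
    fun hv => star_ineq_up (h.2 hv) (lt_of_le_of_lt (le_max_right _ _) (lt_add_one _)) hτ⟩

theorem vs_N {s0 : ℝ} (ha : ∀ u, s0 < ta u) (hb : ∀ v, tb v < s0) :
    VertStar (univ : Set (ℝ × ℝ)) (fun _ => s0) (rN ta tb) where
  cont := continuousOn_const
  proj := fun _ _ => mem_univ _
  sec := fun q _ => ⟨fun _ => ha _, fun _ => hb _⟩
  star := fun q s h τ hτ =>
    ⟨fun hv => star_ineq_down (h.1 hv) (ha _) hτ, fun hv => star_ineq_up (h.2 hv) (hb _) hτ⟩

/-- half plane regions of the intersection of the upper and middle regions -/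
theorem vs_TN {Q : Set (ℝ × ℝ)} (hQ : ∀ q ∈ Q, q.2 ≠ 0) (htb : Continuous tb) :
    VertStar Q (fun q => tb q.2 + 1) ((rT2 ta tb ∩ rN ta tb) ∩ {w | w.1 ∈ Q}) where
  cont := (by fun_prop : Continuous fun q : ℝ × ℝ => tb q.2 + 1).continuousOn
  proj := fun _ h => h.2
  sec := fun q hq => ⟨⟨⟨fun h => absurd h (hQ q hq), fun _ => lt_add_one _⟩,
    ⟨fun h => absurd h (hQ q hq), fun _ => lt_add_one _⟩⟩, hq⟩
  star := fun q s h τ hτ =>
    ⟨⟨⟨fun hv => absurd hv (hQ q h.2), fun hv => star_ineq_up (h.1.1.2 hv) (lt_add_one _) hτ⟩,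
      ⟨fun hv => absurd hv (hQ q h.2), fun hv => star_ineq_up (h.1.1.2 hv) (lt_add_one _) hτ⟩⟩,
        h.2⟩

/-- half plane regions of the intersection of the lower and middle regions -/
theorem vs_BN {Q : Set (ℝ × ℝ)} (hQ : ∀ q ∈ Q, q.1 ≠ 0) (hta : Continuous ta) :
    VertStar Q (fun q => ta q.1 - 1) ((rB2 ta tb ∩ rN ta tb) ∩ {w | w.1 ∈ Q}) where
  cont := (by fun_prop : Continuous fun q : ℝ × ℝ => ta q.1 - 1).continuousOn
  proj := fun _ h => h.2
  sec := fun q hq => ⟨⟨⟨fun _ => sub_one_lt _, fun h => absurd h (hQ q hq)⟩,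
    ⟨fun _ => sub_one_lt _, fun h => absurd h (hQ q hq)⟩⟩, hq⟩
  star := fun q s h τ hτ =>
    ⟨⟨⟨fun hv => star_ineq_down (h.1.1.1 hv) (sub_one_lt _) hτ, fun hv => absurd hv (hQ q h.2)⟩,
      ⟨fun hv => star_ineq_down (h.1.1.1 hv) (sub_one_lt _) hτ, fun hv => absurd hv (hQ q h.2)⟩⟩,
        h.2⟩

end

section Q

theorem contractible_univ_plane : ContractibleSpace (univ : Set (ℝ × ℝ)) :=
  convex_univ.contractibleSpace ⟨0, mem_univ _⟩

/-- upper half plane -/
def hUp : Set (ℝ × ℝ) := {q | 0 < q.2}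
/-- lower half plane -/
def hDn : Set (ℝ × ℝ) := {q | q.2 < 0}
/-- right half plane -/
def hRt : Set (ℝ × ℝ) := {q | 0 < q.1}
/-- left half plane -/
def hLt : Set (ℝ × ℝ) := {q | q.1 < 0}

theorem convex_hUp : Convex ℝ hUp := by
  have : hUp = univ ×ˢ Ioi (0 : ℝ) := by ext q; simp [hUp]
  rw [this]; exact convex_univ.prod (convex_Ioi _)

theorem convex_hDn : Convex ℝ hDn := by
  have : hDn = univ ×ˢ Iio (0 : ℝ) := by ext q; simp [hDn]
  rw [this]; exact convex_univ.prod (convex_Iio _)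

theorem convex_hRt : Convex ℝ hRt := by
  have : hRt = Ioi (0 : ℝ) ×ˢ univ := by ext q; simp [hRt]
  rw [this]; exact (convex_Ioi _).prod convex_univ

theorem convex_hLt : Convex ℝ hLt := by
  have : hLt = Iio (0 : ℝ) ×ˢ univ := by ext q; simp [hLt]
  rw [this]; exact (convex_Iio _).prod convex_univ

theorem pc_of_convex {Q : Set (ℝ × ℝ)} (h : Convex ℝ Q) (hne : Q.Nonempty) :
    PathConnectedSpace Q := by
  have := h.contractibleSpace hne
  infer_instance

theorem pc_hUp : PathConnectedSpace hUp := pc_of_convex convex_hUp ⟨(0, 1), by simp [hUp]⟩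
theorem pc_hDn : PathConnectedSpace hDn := pc_of_convex convex_hDn ⟨(0, -1), by simp [hDn]⟩
theorem pc_hRt : PathConnectedSpace hRt := pc_of_convex convex_hRt ⟨(1, 0), by simp [hRt]⟩
theorem pc_hLt : PathConnectedSpace hLt := pc_of_convex convex_hLt ⟨(-1, 0), by simp [hLt]⟩

/-- the column over a convex planar set is preconnected -/
theorem preconnected_column {Q : Set (ℝ × ℝ)} (h : Convex ℝ Q) :
    IsPreconnected {w : (ℝ × ℝ) × ℝ | w.1 ∈ Q} := by
  have : {w : (ℝ × ℝ) × ℝ | w.1 ∈ Q} = Q ×ˢ univ := by ext w; simp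
  rw [this]
  exact (h.prod convex_univ).isPreconnected

end Q

section Open

variable {ta tb : ℝ → ℝ} (hta : Continuous ta) (htb : Continuous tb)

include hta htb

theorem isOpen_rN : IsOpen (rN ta tb) := by
  have : rN ta tb = ({w : (ℝ × ℝ) × ℝ | w.1.2 = 0} ∩ {w | ta w.1.1 ≤ w.2})ᶜ ∩
      ({w : (ℝ × ℝ) × ℝ | w.1.1 = 0} ∩ {w | w.2 ≤ tb w.1.2})ᶜ := by
    ext w
    simp only [rN, mem_ofPred_eq, mem_inter_iff, mem_compl_iff, not_and, not_le]
  rw [this]
  apply IsOpen.inter
  · rw [isOpen_compl_iff]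
    exact (isClosed_eq (by fun_prop) continuous_const).inter (isClosed_le (by fun_prop) (by fun_prop))
  · rw [isOpen_compl_iff]
    exact (isClosed_eq (by fun_prop) continuous_const).inter (isClosed_le (by fun_prop) (by fun_prop))

end Open

end Pool.Agent.Lib.MP_55d555_gt
end

section

set_option autoImplicit false
set_option linter.unusedSectionVars false

/-!
The pair of values of an odd function on a double cover near a point of a curve.
-/

namespace Pool.Agent.Lib.MP_55d555_gt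

open Set Topology Filter

section

variable {F : Type*} [TopologicalSpace F]

/-- the part of the double cover `y ^ 2 = g` over the complement of `D` -/
def offD (g : F → ℂ) (D : Set F) : Set (F × ℂ) := {z | z.1 ∉ D ∧ z.2 ^ 2 = g z.1}

/-- near `(x, y0)` the function `kk` takes exactly the values `k1` and `k2` off `D` -/
def TV (g : F → ℂ) (D : Set F) (kk : F × ℂ → ℝ) (x : F) (y0 : ℂ) (k1 k2 : ℝ) : Prop :=
  y0 ^ 2 = g x ∧ map kk (𝓝[offD g D] (x, y0)) = 𝓟 {k1, k2}

variable {g : F → ℂ} {D : Set F} {kk : F × ℂ → ℝ}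

theorem TV.neg (hodd : ∀ z, kk (z.1, -z.2) = -kk z) {x : F} {y0 : ℂ} {k1 k2 : ℝ}
    (h : TV g D kk x y0 k1 k2) : TV g D kk x (-y0) (-k1) (-k2) := by
  refine ⟨by rw [← h.1]; ring, ?_⟩
  let f : F × ℂ ≃ₜ F × ℂ := (Homeomorph.refl F).prodCongr (Homeomorph.neg ℂ)
  have hf : ∀ z, f z = (z.1, -z.2) := fun z => rfl
  have h1 : map f (𝓝[offD g D] (x, y0)) = 𝓝[offD g D] (x, -y0) := by
    have e1 := f.isEmbedding.map_nhdsWithin_eq (offD g D) (x, y0)
    rw [e1, hf]
    have e2 : f '' offD g D = offD g D := by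
      ext z
      constructor
      · rintro ⟨w, hw, rfl⟩
        exact ⟨hw.1, by rw [hf]; simpa using hw.2⟩
      · intro hz
        exact ⟨(z.1, -z.2), ⟨hz.1, by simpa using hz.2⟩, by simp [hf]⟩
    rw [e2]
  rw [← h1, map_map]
  have h2 : kk ∘ f = (fun r : ℝ => -r) ∘ kk := by
    funext z
    simp [hf, hodd]
  rw [h2, ← map_map, h.2, map_principal]
  congr 1
  ext r
  simp

theorem TV.unique (hodd : ∀ z, kk (z.1, -z.2) = -kk z) {x : F} {y0 y0' : ℂ}
    {k1 k2 k1' k2' : ℝ} (h : TV g D kk x y0 k1 k2) (h' : TV g D kk x y0' k1' k2') :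
    (k1 + k2) ^ 2 = (k1' + k2') ^ 2 := by
  have key : ∀ {y : ℂ} {a b a' b' : ℝ}, TV g D kk x y a b → TV g D kk x y a' b' →
      a + b = a' + b' := by
    intro y a b a' b' h1 h2
    have h3 : (𝓟 {a, b} : Filter ℝ) = 𝓟 {a', b'} := by rw [← h1.2, ← h2.2]
    have h4 : ({a, b} : Set ℝ) = {a', b'} := principal_eq_iff_eq.1 h3
    rcases Set.pair_eq_pair_iff.1 h4 with ⟨rfl, rfl⟩ | ⟨rfl, rfl⟩
    · rfl
    · ring
  have hsq : y0 ^ 2 = y0' ^ 2 := by rw [h.1, h'.1]
  rcases sq_eq_sq_iff_eq_or_eq_neg.1 hsq with e | e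
  · subst e
    rw [key h h']
  · have h2 := (h'.neg hodd)
    rw [← e] at h2
    rw [key h h2]
    ring

/-- Computing the pair of values from a local section. -/
theorem TV.of_local {x : F} {yy : F → ℂ} (hyc : ContinuousAt yy x)
    (hy0 : yy x ≠ 0) (hy2 : ∀ᶠ x' in 𝓝 x, yy x' ^ 2 = g x') {U1 U2 : Set F}
    (h1 : x ∈ closure U1) (h2 : x ∈ closure U2) (hU1 : ∀ x' ∈ U1, x' ∉ D)
    (hU2 : ∀ x' ∈ U2, x' ∉ D) (hcov : ∀ᶠ x' in 𝓝 x, x' ∉ D → x' ∈ U1 ∨ x' ∈ U2) {k1 k2 : ℝ}
    (hk1 : ∀ x' ∈ U1, kk (x', yy x') = k1)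
    (hk2 : ∀ x' ∈ U2, kk (x', yy x') = k2) : TV g D kk x (yy x) k1 k2 := by
  refine ⟨hy2.self_of_nhds, le_antisymm ?_ ?_⟩
  · rw [le_principal_iff, mem_map]
    have ef : Tendsto (Prod.fst : F × ℂ → F) (𝓝 (x, yy x)) (𝓝 x) :=
      continuous_fst.tendsto (x, yy x)
    have e1 : ∀ᶠ z : F × ℂ in 𝓝 (x, yy x), z.1 ∉ D → z.1 ∈ U1 ∨ z.1 ∈ U2 :=
      ef.eventually hcov
    have e2 : ∀ᶠ z : F × ℂ in 𝓝 (x, yy x), yy z.1 ^ 2 = g z.1 :=
      ef.eventually hy2
    have e3 : ∀ᶠ z : F × ℂ in 𝓝 (x, yy x), z.2 + yy z.1 ≠ 0 := by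
      have hc : ContinuousAt (fun z : F × ℂ => z.2 + yy z.1) (x, yy x) := by
        apply ContinuousAt.add continuous_snd.continuousAt
        exact ContinuousAt.comp (f := Prod.fst) (x := ((x, yy x) : F × ℂ)) hyc
          continuous_fst.continuousAt
      apply hc.eventually_ne
      simp only
      intro h
      apply hy0
      have : (2 : ℂ) * yy x = 0 := by rw [two_mul]; exact h
      simpa using this
    rw [mem_nhdsWithin_iff_eventually]
    filter_upwards [e1, e2, e3] with z c1 c2 c3 hz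
    have hz2 : z.2 = yy z.1 := by
      have : z.2 ^ 2 = yy z.1 ^ 2 := by rw [hz.2, c2]
      rcases sq_eq_sq_iff_eq_or_eq_neg.1 this with h | h
      · exact h
      · exfalso
        apply c3
        rw [h]; ring
    have hz3 : z = (z.1, yy z.1) := Prod.ext rfl hz2
    rw [mem_preimage, hz3]
    rcases c1 hz.1 with h | h
    · left; exact hk1 _ h
    · right; exact hk2 _ h
  · have key : ∀ {U : Set F} {k : ℝ}, x ∈ closure U → (∀ x' ∈ U, x' ∉ D) →
        (∀ x' ∈ U, kk (x', yy x') = k) →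
        pure k ≤ map kk (𝓝[offD g D] (x, yy x)) := by
      intro U k hxU hU hk
      have : (𝓝[U] x).NeBot := mem_closure_iff_nhdsWithin_neBot.1 hxU
      have ht : Tendsto (fun x' => (x', yy x')) (𝓝[U] x) (𝓝[offD g D] (x, yy x)) := by
        apply tendsto_nhdsWithin_of_tendsto_nhds_of_eventually_within
        · exact (continuousAt_id.prodMk hyc).tendsto.mono_left nhdsWithin_le_nhds
        · filter_upwards [self_mem_nhdsWithin, nhdsWithin_le_nhds hy2] with x' hx' hx2
          exact ⟨hU x' hx', hx2⟩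
      have h3 : map kk (map (fun x' => (x', yy x')) (𝓝[U] x)) = pure k := by
        rw [map_map]
        have : kk ∘ (fun x' => (x', yy x')) =ᶠ[𝓝[U] x] fun _ => k := by
          filter_upwards [self_mem_nhdsWithin] with x' hx'
          exact hk x' hx'
        rw [map_congr this, Filter.map_const]
      rw [← h3]
      exact map_mono ht
    have : (𝓟 {k1, k2} : Filter ℝ) = pure k1 ⊔ pure k2 := by
      rw [← principal_singleton, ← principal_singleton, sup_principal, Set.singleton_union]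
    rw [this]
    exact sup_le (key h1 hU1 hk1) (key h2 hU2 hk2)

end

end Pool.Agent.Lib.MP_55d555_gt
end

section

set_option autoImplicit false
set_option linter.unusedSectionVars false

/-!
The lifting lemma for the top region of a configuration whose upper piece is a handlebody.
-/

namespace Pool.Agent.Lib.MP_55d555_gt

open Set Topology

namespace Config

variable {S F P : Type*} [TopologicalSpace S] [TopologicalSpace F] [TopologicalSpace P]

theorem top_lift (c : Config S F P) [CompactSpace P] [CompactSpace F] [T2Space F] [T2Space S]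
    {g : ℕ} (φ : c.Wp ≃ₜ handlebody g) {N : ℕ} {G : S → ℂ} (hG : Continuous G)
    (hlink : ∀ x, G x = 0 → x ∈ c.link) {θ : Fin N → S × ℂ → UnitAddCircle}
    (hθ : ∀ i, ContinuousOn (θ i) (dbl G univ))
    (hodd : ∀ i, ∀ z ∈ dbl G univ, θ i (z.1, -z.2) = -θ i z) :
    ∃ (M : Fin (g + 1) → Fin N → ℤ) (φ : Fin N → S × ℂ → ℝ),
      (∀ i, ∀ z ∈ dbl G c.top, ((φ i z : ℝ) : UnitAddCircle) = θ i z) ∧
      (∀ i z, φ i (z.1, -z.2) = -φ i z) ∧
      ∀ a : Fin N → ℤ, (∀ j, ∑ i, a i * M j i = 0) →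
        ContinuousOn (fun z => ∑ i, (a i : ℝ) * φ i z) (dbl G c.top) := by
  obtain ⟨R, hR0, hR⟩ := c.exists_bound
  obtain ⟨Wa, Wb, Wj, hcla, hclb, hun, hsub, hcov, hca, hcb, hpj⟩ :=
    handlebody_decomp c.clp φ
  have hWa : Wa ⊆ c.Wp := hun ▸ subset_union_left
  have hWb : Wb ⊆ c.Wp := hun ▸ subset_union_right
  have hWj : ∀ j, Wj j ⊆ c.Wp := fun j => (hsub j).trans (inter_subset_left.trans hWa)
  have hA : ContractibleSpace (c.part R Wa) := c.contractible_over hR0 hR hWa
  have hB : ContractibleSpace (c.part R Wb) := c.contractible_over hR0 hR hWb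
  have hJ : ∀ j, IsPreconnected (c.part R (Wj j)) := fun j => by
    have := hpj j
    exact c.isPreconnected_over hR0 hR (hWj j)
  have hmem : ∀ z ∈ c.top, c.vm (rho R) z ∈ c.Wp := by
    intro z hz
    by_cases h : z ∈ range c.h
    · obtain ⟨⟨x, s⟩, rfl⟩ := h
      rw [vm_h]
      exact c.pos _ _ (le_max_left _ _)
    · rw [vm_of_not _ _ h]
      rcases c.top_sub hz with h1 | h1
      · exact h1
      · exact absurd h1 h
  have hclosed : ∀ A : Set S, IsClosed A → ∃ C, IsClosed C ∧ c.top ∩ C = c.part R A := by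
    intro A hAc
    obtain ⟨C, hC, hC2⟩ := (continuousOn_iff_isClosed.1 (c.rho_continuousOn hR0)) A hAc
    refine ⟨C, hC, ?_⟩
    ext z
    constructor
    · rintro ⟨h1, h2⟩
      have : z ∈ C ∩ {z | z ∈ c.Wp ∨ z ∈ range c.h} := ⟨h2, c.top_sub h1⟩
      rw [← hC2] at this
      exact ⟨h1, this.1⟩
    · rintro ⟨h1, h2⟩
      have : z ∈ c.vm (rho R) ⁻¹' A ∩ {z | z ∈ c.Wp ∨ z ∈ range c.h} := ⟨h2, c.top_sub h1⟩
      rw [hC2] at this
      exact ⟨h1, this.1⟩
  refine Pool.Agent.Lib.MP_55d555_gt.top_lift (T := c.top) (Ta := c.part R Wa)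
    (Tb := c.part R Wb) (Tj := fun j => c.part R (Wj j)) hθ hodd hG ?_ ?_ (hclosed Wa hcla)
    (hclosed Wb hclb) ?_ hJ ?_
  · ext z
    constructor
    · intro hz
      have := hmem z hz
      rw [← hun] at this
      rcases this with h | h
      · exact Or.inl ⟨hz, h⟩
      · exact Or.inr ⟨hz, h⟩
    · rintro (h | h) <;> exact h.1
  · intro x hx h
    exact c.top_disjoint_link hx (hlink x h)
  · intro j z hz
    exact ⟨⟨hz.1, (hsub j hz.2).1⟩, ⟨hz.1, (hsub j hz.2).2⟩⟩
  · rintro z ⟨h1, h2⟩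
    obtain ⟨j, hj⟩ := mem_iUnion.1 (hcov ⟨h1.2, h2.2⟩)
    exact mem_iUnion.2 ⟨j, h1.1, hj⟩

end Config

end Pool.Agent.Lib.MP_55d555_gt
end
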