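import Mathlib
import Pool.Agent.Lib.MP_55d555_gt.Local
import Pool.Agent.Lib.MP_55d555_gt.Mg.G001
import Pool.Agent.Lib.MP_55d555_gt.Diagram

section

set_option autoImplicit false
set_option linter.unusedSectionVars false

/-!
The value attached to the points of the projection.
-/

namespace Pool.Agent.Lib.MP_55d555_gt

open Set Topology Filter

section Chart

variable {F : Type*} [TopologicalSpace F] {g : F → ℂ} {D : Set F} {kk : F × ℂ → ℝ}

theorem TV.of_chart {e : ℝ × ℝ → F} (he : IsOpenEmbedding e) {q0 : ℝ × ℝ} {yy : F → ℂ}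
    (hyc : ContinuousAt yy (e q0)) (hy0 : yy (e q0) ≠ 0) (hy2 : ∀ q, yy (e q) ^ 2 = g (e q))
    {Q1 Q2 : Set (ℝ × ℝ)} (h1 : q0 ∈ closure Q1) (h2 : q0 ∈ closure Q2)
    (hQ1 : ∀ q ∈ Q1, e q ∉ D) (hQ2 : ∀ q ∈ Q2, e q ∉ D)
    (hcov : ∀ᶠ q in 𝓝 q0, e q ∉ D → q ∈ Q1 ∨ q ∈ Q2) {k1 k2 : ℝ}
    (hk1 : ∀ q ∈ Q1, kk (e q, yy (e q)) = k1) (hk2 : ∀ q ∈ Q2, kk (e q, yy (e q)) = k2) :
    TV g D kk (e q0) (yy (e q0)) k1 k2 := by
  apply TV.of_local hyc hy0 (U1 := e '' Q1) (U2 := e '' Q2)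
  · rw [← he.map_nhds_eq q0]
    exact eventually_map.2 (Eventually.of_forall hy2)
  · exact image_closure_subset_closure_image he.continuous ⟨q0, h1, rfl⟩
  · exact image_closure_subset_closure_image he.continuous ⟨q0, h2, rfl⟩
  · rintro _ ⟨q, hq, rfl⟩; exact hQ1 q hq
  · rintro _ ⟨q, hq, rfl⟩; exact hQ2 q hq
  · rw [← he.map_nhds_eq q0]
    apply eventually_map.2
    filter_upwards [hcov] with q hq hD
    rcases hq hD with h | h
    · exact Or.inl ⟨q, h, rfl⟩
    · exact Or.inr ⟨q, h, rfl⟩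
  · rintro _ ⟨q, hq, rfl⟩; exact hk1 q hq
  · rintro _ ⟨q, hq, rfl⟩; exact hk2 q hq

theorem mem_closure_dir {Q : Set (ℝ × ℝ)} {q d : ℝ × ℝ} (h : ∀ ε : ℝ, 0 < ε → q + ε • d ∈ Q) :
    q ∈ closure Q := by
  have ht : Tendsto (fun ε : ℝ => q + ε • d) (𝓝[>] 0) (𝓝 q) := by
    have : Tendsto (fun ε : ℝ => q + ε • d) (𝓝 0) (𝓝 (q + (0 : ℝ) • d)) := by
      apply Continuous.tendsto
      fun_prop
    rw [zero_smul, add_zero] at this
    exact this.mono_left nhdsWithin_le_nhds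
  exact mem_closure_of_tendsto ht (by
    filter_upwards [self_mem_nhdsWithin] with ε hε
    exact h ε hε)

end Chart

namespace Config

variable {S F P : Type*} [TopologicalSpace S] [TopologicalSpace F] [TopologicalSpace P]

/-- The difference of two functions on the double cover, restricted to level `R`. -/
def kk (c : Config S F P) (R : ℝ) (fT fB : S × ℂ → ℝ) (z : F × ℂ) : ℝ :=
  fT (c.h (z.1, R), z.2) - fB (c.h (z.1, R), z.2)

/-- The function `r` is attached to the point `x` of the projection. -/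
def HasC (c : Config S F P) (G : S → ℂ) (R : ℝ) (fT fB : S × ℂ → ℝ) (x : F) (r : ℝ) : Prop :=
  ∃ (y0 : ℂ) (k1 k2 : ℝ), TV (fun x => G (c.h (x, R))) (range c.p) (c.kk R fT fB) x y0 k1 k2 ∧
    r = (k1 + k2) ^ 2

variable {c : Config S F P} {G : S → ℂ} {R : ℝ} {fT fB : S × ℂ → ℝ} {θ : S × ℂ → UnitAddCircle}

theorem kk_neg (hoT : ∀ z, fT (z.1, -z.2) = -fT z) (hoB : ∀ z, fB (z.1, -z.2) = -fB z)
    (z : F × ℂ) : c.kk R fT fB (z.1, -z.2) = -c.kk R fT fB z := by
  unfold kk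
  have h1 := hoT (c.h (z.1, R), z.2)
  have h2 := hoB (c.h (z.1, R), z.2)
  simp only at h1 h2 ⊢
  rw [h1, h2]
  ring

theorem HasC.unique (hoT : ∀ z, fT (z.1, -z.2) = -fT z) (hoB : ∀ z, fB (z.1, -z.2) = -fB z)
    {x : F} {r r' : ℝ} (h : c.HasC G R fT fB x r) (h' : c.HasC G R fT fB x r') : r = r' := by
  obtain ⟨y0, k1, k2, h1, rfl⟩ := h
  obtain ⟨y0', k1', k2', h1', rfl⟩ := h'
  exact TV.unique (kk_neg hoT hoB) h1 h1'

theorem abs_kk_eq (hoT : ∀ z, fT (z.1, -z.2) = -fT z) (hoB : ∀ z, fB (z.1, -z.2) = -fB z)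
    {x : F} {y y' : ℂ} (h : y ^ 2 = y' ^ 2) :
    |c.kk R fT fB (x, y)| = |c.kk R fT fB (x, y')| := by
  rcases sq_eq_sq_iff_eq_or_eq_neg.1 h with h | h
  · rw [h]
  · rw [h]
    have := kk_neg (c := c) (R := R) hoT hoB (x, y')
    simp only at this
    rw [this, abs_neg]

section

variable [CompactSpace P] [T2Space F] [CompactSpace F] [T2Space S]

theorem RegChart.isOpen_image (r : RegChart c) : IsOpen (c.col r.e '' rT1 r.ta) := by
  have : c.col r.e '' rT1 r.ta = c.top ∩ range (c.col r.e) := by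
    ext x
    constructor
    · rintro ⟨w, hw, rfl⟩
      exact ⟨r.mem_top.2 hw, w, rfl⟩
    · rintro ⟨h3, w, rfl⟩
      exact ⟨w, r.mem_top.1 h3, rfl⟩
  rw [this]
  exact c.isOpen_top.inter (c.col_open r.he).isOpen_range

theorem CrossChart.isOpen_image (r : CrossChart c) : IsOpen (c.col r.e '' rT2 r.ta r.tb) := by
  have : c.col r.e '' rT2 r.ta r.tb = c.top ∩ range (c.col r.e) := by
    ext x
    constructor
    · rintro ⟨w, hw, rfl⟩
      exact ⟨r.mem_top.2 hw, w, rfl⟩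
    · rintro ⟨h3, w, rfl⟩
      exact ⟨w, r.mem_top.1 h3, rfl⟩
  rw [this]
  exact c.isOpen_top.inter (c.col_open r.he).isOpen_range

/-- The values near a regular point. -/
theorem RegChart.values (r : RegChart c) (hR : ∀ τ, |c.t τ| < R) (hG : Continuous G)
    (hlink : ∀ x, G x = 0 → x ∈ c.link)
    (hT : OddLift G θ c.top fT) (hB : OddLift G θ c.flip.top fB) :
    ∃ k1 k2 : ℝ, (∀ u, c.HasC G R fT fB (r.e (u, 0)) ((k1 + k2) ^ 2)) ∧
      (∀ q : ℝ × ℝ, 0 < q.2 → ∀ y : ℂ, y ^ 2 = G (c.h (r.e q, R)) →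
        |c.kk R fT fB (r.e q, y)| = |k1|) ∧
      (∀ q : ℝ × ℝ, q.2 < 0 → ∀ y : ℂ, y ^ 2 = G (c.h (r.e q, R)) →
        |c.kk R fT fB (r.e q, y)| = |k2|) := by
  obtain ⟨y, k1, k2, hy, hy2, hk1, hk2⟩ := r.exists_data hG hlink hT hB
  let yy : F → ℂ := fun x => y (c.h (x, R))
  have hin : ∀ q, c.h (r.e q, R) ∈ c.col r.e '' rT1 r.ta := by
    intro q
    refine ⟨(q, R), fun _ => ?_, rfl⟩
    exact lt_of_le_of_lt (le_abs_self _) (hR _)
  have hG0 : ∀ q, G (c.h (r.e q, R)) ≠ 0 := by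
    intro q h
    obtain ⟨w, hw, he⟩ := hin q
    rw [← he] at h
    exact c.top_disjoint_link (r.mem_top.2 hw) (hlink _ h)
  have hyy2 : ∀ q, yy (r.e q) ^ 2 = G (c.h (r.e q, R)) := fun q => hy2 _ (hin q)
  have hyy0 : ∀ q, yy (r.e q) ≠ 0 := by
    intro q h
    have := hyy2 q
    rw [h] at this
    exact hG0 q (by simpa using this.symm)
  have hyc : ∀ q, ContinuousAt yy (r.e q) := by
    intro q
    have h1 : ContinuousAt y (c.h (r.e q, R)) := hy.continuousAt (r.isOpen_image.mem_nhds (hin q))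
    have h2 : Continuous fun x : F => c.h (x, R) :=
      c.hop.continuous.comp (continuous_id.prodMk continuous_const)
    exact ContinuousAt.comp (f := fun x : F => c.h (x, R)) (x := r.e q) h1 h2.continuousAt
  have hkk1 : ∀ q : ℝ × ℝ, 0 < q.2 → c.kk R fT fB (r.e q, yy (r.e q)) = k1 := by
    intro q hq
    exact hk1 (q, R) hq
  have hkk2 : ∀ q : ℝ × ℝ, q.2 < 0 → c.kk R fT fB (r.e q, yy (r.e q)) = k2 := by
    intro q hq
    exact hk2 (q, R) hq
  refine ⟨k1, k2, ?_, ?_, ?_⟩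
  · intro u
    refine ⟨yy (r.e (u, 0)), k1, k2, ?_, rfl⟩
    apply TV.of_chart r.he (hyc _) (hyy0 _) hyy2 (Q1 := hUp) (Q2 := hDn)
    · apply mem_closure_dir (d := (0, 1))
      intro ε hε
      simpa [hUp] using hε
    · apply mem_closure_dir (d := (0, -1))
      intro ε hε
      simpa [hDn] using hε
    · intro q hq h
      exact ne_of_gt hq (r.mem_D.1 h)
    · intro q hq h
      exact ne_of_lt hq (r.mem_D.1 h)
    · apply Eventually.of_forall
      intro q hq
      rw [r.mem_D] at hq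
      rcases lt_or_gt_of_ne hq with h | h
      · exact Or.inr h
      · exact Or.inl h
    · exact fun q hq => hkk1 q hq
    · exact fun q hq => hkk2 q hq
  · intro q hq y' hy'
    rw [← hkk1 q hq]
    exact abs_kk_eq hT.odd hB.odd (by rw [hy', hyy2])
  · intro q hq y' hy'
    rw [← hkk2 q hq]
    exact abs_kk_eq hT.odd hB.odd (by rw [hy', hyy2])

/-- The values near a crossing. -/
theorem CrossChart.values (r : CrossChart c) (hR : ∀ τ, |c.t τ| < R) (hG : Continuous G)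
    (hlink : ∀ x, G x = 0 ↔ x ∈ c.link)
    (hns : ∀ x ∈ c.link, ∀ U : Set S, IsOpen U → x ∈ U → ¬ ∃ y : S → ℂ,
      ContinuousOn y (U \ c.link) ∧ ∀ z ∈ U \ c.link, y z ^ 2 = G z)
    (hT : OddLift G θ c.top fT) (hB : OddLift G θ c.flip.top fB)
    {yN : S → ℂ} {FN : S → ℝ} {aU aD bR bL : ℤ}
    (hmid : CrossMid c r G θ fT fB yN FN aU aD bR bL) :
    ∃ η : ℝ, (η = 1 ∨ η = -1) ∧
      (∀ u, 0 < u → c.HasC G R fT fB (r.e (u, 0)) ((η * (aU - bR) + -η * (aD - bR)) ^ 2)) ∧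
      (∀ u, u < 0 → c.HasC G R fT fB (r.e (u, 0)) ((η * (aU - bL) + -η * (aD - bL)) ^ 2)) ∧
      (∀ v, 0 < v → c.HasC G R fT fB (r.e (0, v)) ((η * (aU - bR) + η * (aU - bL)) ^ 2)) ∧
      (∀ v, v < 0 → c.HasC G R fT fB (r.e (0, v)) ((-η * (aD - bR) + -η * (aD - bL)) ^ 2)) ∧
      (∀ q : ℝ × ℝ, 0 < q.1 → 0 < q.2 → ∀ y : ℂ, y ^ 2 = G (c.h (r.e q, R)) →
        |c.kk R fT fB (r.e q, y)| = |(aU - bR : ℝ)|) ∧
      (∀ q : ℝ × ℝ, q.1 < 0 → 0 < q.2 → ∀ y : ℂ, y ^ 2 = G (c.h (r.e q, R)) →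
        |c.kk R fT fB (r.e q, y)| = |(aU - bL : ℝ)|) ∧
      (∀ q : ℝ × ℝ, q.1 < 0 → q.2 < 0 → ∀ y : ℂ, y ^ 2 = G (c.h (r.e q, R)) →
        |c.kk R fT fB (r.e q, y)| = |(aD - bL : ℝ)|) ∧
      (∀ q : ℝ × ℝ, 0 < q.1 → q.2 < 0 → ∀ y : ℂ, y ^ 2 = G (c.h (r.e q, R)) →
        |c.kk R fT fB (r.e q, y)| = |(aD - bR : ℝ)|) := by
  obtain ⟨y, η, hη, hy, hy2, hup, hdn⟩ := r.exists_up hG hlink c.isOpen_top hns hmid.ycont hmid.ysq
  let yy : F → ℂ := fun x => y (c.h (x, R))
  have hin : ∀ q, c.h (r.e q, R) ∈ c.col r.e '' rT2 r.ta r.tb := by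
    intro q
    refine ⟨(q, R), ⟨fun _ => ?_, fun _ => ?_⟩, rfl⟩
    · exact lt_of_le_of_lt (le_abs_self _) (hR _)
    · exact lt_of_le_of_lt (le_abs_self _) (hR _)
  have hG0 : ∀ q, G (c.h (r.e q, R)) ≠ 0 := by
    intro q h
    obtain ⟨w, hw, he⟩ := hin q
    rw [← he] at h
    exact c.top_disjoint_link (r.mem_top.2 hw) ((hlink _).1 h)
  have hyy2 : ∀ q, yy (r.e q) ^ 2 = G (c.h (r.e q, R)) := fun q => hy2 _ (hin q)
  have hyy0 : ∀ q, yy (r.e q) ≠ 0 := by
    intro q h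
    have := hyy2 q
    rw [h] at this
    exact hG0 q (by simpa using this.symm)
  have hyc : ∀ q, ContinuousAt yy (r.e q) := by
    intro q
    have h1 : ContinuousAt y (c.h (r.e q, R)) := hy.continuousAt (r.isOpen_image.mem_nhds (hin q))
    have h2 : Continuous fun x : F => c.h (x, R) :=
      c.hop.continuous.comp (continuous_id.prodMk continuous_const)
    exact ContinuousAt.comp (f := fun x : F => c.h (x, R)) (x := r.e q) h1 h2.continuousAt
  -- the value of `kk` on a quadrant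
  have hquad : ∀ q : ℝ × ℝ, q.1 ≠ 0 → q.2 ≠ 0 →
      (q, R) ∈ rT2 r.ta r.tb ∩ rN r.ta r.tb ∧ (q, R) ∈ rB2 r.ta r.tb ∩ rN r.ta r.tb := by
    intro q h1 h2
    refine ⟨⟨⟨fun h => absurd h h2, fun h => absurd h h1⟩,
      ⟨fun h => absurd h h2, fun h => absurd h h1⟩⟩,
      ⟨⟨fun h => absurd h h2, fun h => absurd h h1⟩,
      ⟨fun h => absurd h h2, fun h => absurd h h1⟩⟩⟩
  have hmul : ∀ (f : S × ℂ → ℝ), (∀ z, f (z.1, -z.2) = -f z) → ∀ (ε : ℝ), (ε = 1 ∨ ε = -1) →
      ∀ (x : S) (w : ℂ), f (x, ε * w) = ε * f (x, w) := by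
    intro f hf ε hε x w
    rcases hε with rfl | rfl
    · simp
    · have := hf (x, w)
      simp only at this
      push_cast
      rw [neg_one_mul, this]
      ring
  have hηn : (-η = 1 ∨ -η = -1) := by
    rcases hη with h | h
    · right; rw [h]
    · left; rw [h]; norm_num
  have hUR : ∀ q : ℝ × ℝ, 0 < q.1 → 0 < q.2 →
      c.kk R fT fB (r.e q, yy (r.e q)) = η * (aU - bR) := by
    intro q h1 h2
    have hq := hquad q (ne_of_gt h1) (ne_of_gt h2)
    have e1 := hmid.up _ hq.1 h2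
    have e2 := hmid.rt _ hq.2 h1
    have e3 := hup _ hq.1 h2
    simp only [kk, yy]
    change fT (c.col r.e (q, R), y (c.col r.e (q, R))) - fB (c.col r.e (q, R), y (c.col r.e (q, R)))
      = _
    rw [e3, hmul fT hT.odd η hη, hmul fB hB.odd η hη, ← e1, ← e2]
    ring
  have hUL : ∀ q : ℝ × ℝ, q.1 < 0 → 0 < q.2 →
      c.kk R fT fB (r.e q, yy (r.e q)) = η * (aU - bL) := by
    intro q h1 h2
    have hq := hquad q (ne_of_lt h1) (ne_of_gt h2)
    have e1 := hmid.up _ hq.1 h2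
    have e2 := hmid.lt _ hq.2 h1
    have e3 := hup _ hq.1 h2
    simp only [kk, yy]
    change fT (c.col r.e (q, R), y (c.col r.e (q, R))) - fB (c.col r.e (q, R), y (c.col r.e (q, R)))
      = _
    rw [e3, hmul fT hT.odd η hη, hmul fB hB.odd η hη, ← e1, ← e2]
    ring
  have hDL : ∀ q : ℝ × ℝ, q.1 < 0 → q.2 < 0 →
      c.kk R fT fB (r.e q, yy (r.e q)) = -η * (aD - bL) := by
    intro q h1 h2
    have hq := hquad q (ne_of_lt h1) (ne_of_lt h2)
    have e1 := hmid.dn _ hq.1 h2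
    have e2 := hmid.lt _ hq.2 h1
    have e3 := hdn _ hq.1 h2
    simp only [kk, yy]
    change fT (c.col r.e (q, R), y (c.col r.e (q, R))) - fB (c.col r.e (q, R), y (c.col r.e (q, R)))
      = _
    rw [e3, ← Complex.ofReal_neg, hmul fT hT.odd (-η) hηn, hmul fB hB.odd (-η) hηn, ← e1, ← e2]
    ring
  have hDR : ∀ q : ℝ × ℝ, 0 < q.1 → q.2 < 0 →
      c.kk R fT fB (r.e q, yy (r.e q)) = -η * (aD - bR) := by
    intro q h1 h2
    have hq := hquad q (ne_of_gt h1) (ne_of_lt h2)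
    have e1 := hmid.dn _ hq.1 h2
    have e2 := hmid.rt _ hq.2 h1
    have e3 := hdn _ hq.1 h2
    simp only [kk, yy]
    change fT (c.col r.e (q, R), y (c.col r.e (q, R))) - fB (c.col r.e (q, R), y (c.col r.e (q, R)))
      = _
    rw [e3, ← Complex.ofReal_neg, hmul fT hT.odd (-η) hηn, hmul fB hB.odd (-η) hηn, ← e1, ← e2]
    ring
  have habs : ∀ (ε : ℝ), (ε = 1 ∨ ε = -1) → ∀ k : ℝ, |ε * k| = |k| := by
    intro ε hε k
    rcases hε with rfl | rfl
    · simp
    · simp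
  refine ⟨η, hη, ?_, ?_, ?_, ?_, ?_, ?_, ?_, ?_⟩
  · intro u hu
    refine ⟨yy (r.e (u, 0)), _, _, ?_, rfl⟩
    apply TV.of_chart r.he (hyc _) (hyy0 _) hyy2 (Q1 := hRt ∩ hUp) (Q2 := hRt ∩ hDn)
    · apply mem_closure_dir (d := (0, 1))
      intro ε hε
      simpa [hUp, hRt] using ⟨hu, hε⟩
    · apply mem_closure_dir (d := (0, -1))
      intro ε hε
      simpa [hDn, hRt] using ⟨hu, hε⟩
    · rintro q ⟨h1, h2⟩ h
      rcases r.mem_D.1 h with h | h
      · exact ne_of_gt h1 h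
      · exact ne_of_gt h2 h
    · rintro q ⟨h1, h2⟩ h
      rcases r.mem_D.1 h with h | h
      · exact ne_of_gt h1 h
      · exact ne_of_lt h2 h
    · have : ∀ᶠ q : ℝ × ℝ in 𝓝 (u, 0), 0 < q.1 :=
        (continuous_fst.tendsto ((u, 0) : ℝ × ℝ)).eventually (lt_mem_nhds hu)
      filter_upwards [this] with q hq1 hq
      rw [r.mem_D] at hq
      push Not at hq
      rcases lt_or_gt_of_ne hq.2 with h | h
      · exact Or.inr ⟨hq1, h⟩
      · exact Or.inl ⟨hq1, h⟩
    · exact fun q hq => hUR q hq.1 hq.2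
    · exact fun q hq => hDR q hq.1 hq.2
  · intro u hu
    refine ⟨yy (r.e (u, 0)), _, _, ?_, rfl⟩
    apply TV.of_chart r.he (hyc _) (hyy0 _) hyy2 (Q1 := hLt ∩ hUp) (Q2 := hLt ∩ hDn)
    · apply mem_closure_dir (d := (0, 1))
      intro ε hε
      simpa [hUp, hLt] using ⟨hu, hε⟩
    · apply mem_closure_dir (d := (0, -1))
      intro ε hε
      simpa [hDn, hLt] using ⟨hu, hε⟩
    · rintro q ⟨h1, h2⟩ h
      rcases r.mem_D.1 h with h | h
      · exact ne_of_lt h1 h
      · exact ne_of_gt h2 h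
    · rintro q ⟨h1, h2⟩ h
      rcases r.mem_D.1 h with h | h
      · exact ne_of_lt h1 h
      · exact ne_of_lt h2 h
    · have : ∀ᶠ q : ℝ × ℝ in 𝓝 (u, 0), q.1 < 0 :=
        (continuous_fst.tendsto ((u, 0) : ℝ × ℝ)).eventually (gt_mem_nhds hu)
      filter_upwards [this] with q hq1 hq
      rw [r.mem_D] at hq
      push Not at hq
      rcases lt_or_gt_of_ne hq.2 with h | h
      · exact Or.inr ⟨hq1, h⟩
      · exact Or.inl ⟨hq1, h⟩
    · exact fun q hq => hUL q hq.1 hq.2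
    · exact fun q hq => hDL q hq.1 hq.2
  · intro v hv
    refine ⟨yy (r.e (0, v)), _, _, ?_, rfl⟩
    apply TV.of_chart r.he (hyc _) (hyy0 _) hyy2 (Q1 := hRt ∩ hUp) (Q2 := hLt ∩ hUp)
    · apply mem_closure_dir (d := (1, 0))
      intro ε hε
      simpa [hUp, hRt] using ⟨hε, hv⟩
    · apply mem_closure_dir (d := (-1, 0))
      intro ε hε
      simpa [hUp, hLt] using ⟨hε, hv⟩
    · rintro q ⟨h1, h2⟩ h
      rcases r.mem_D.1 h with h | h
      · exact ne_of_gt h1 h
      · exact ne_of_gt h2 h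
    · rintro q ⟨h1, h2⟩ h
      rcases r.mem_D.1 h with h | h
      · exact ne_of_lt h1 h
      · exact ne_of_gt h2 h
    · have : ∀ᶠ q : ℝ × ℝ in 𝓝 (0, v), 0 < q.2 :=
        (continuous_snd.tendsto ((0, v) : ℝ × ℝ)).eventually (lt_mem_nhds hv)
      filter_upwards [this] with q hq1 hq
      rw [r.mem_D] at hq
      push Not at hq
      rcases lt_or_gt_of_ne hq.1 with h | h
      · exact Or.inr ⟨h, hq1⟩
      · exact Or.inl ⟨h, hq1⟩
    · exact fun q hq => hUR q hq.1 hq.2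
    · exact fun q hq => hUL q hq.1 hq.2
  · intro v hv
    refine ⟨yy (r.e (0, v)), _, _, ?_, rfl⟩
    apply TV.of_chart r.he (hyc _) (hyy0 _) hyy2 (Q1 := hRt ∩ hDn) (Q2 := hLt ∩ hDn)
    · apply mem_closure_dir (d := (1, 0))
      intro ε hε
      simpa [hDn, hRt] using ⟨hε, hv⟩
    · apply mem_closure_dir (d := (-1, 0))
      intro ε hε
      simpa [hDn, hLt] using ⟨hε, hv⟩
    · rintro q ⟨h1, h2⟩ h
      rcases r.mem_D.1 h with h | h
      · exact ne_of_gt h1 h
      · exact ne_of_lt h2 h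
    · rintro q ⟨h1, h2⟩ h
      rcases r.mem_D.1 h with h | h
      · exact ne_of_lt h1 h
      · exact ne_of_lt h2 h
    · have : ∀ᶠ q : ℝ × ℝ in 𝓝 (0, v), q.2 < 0 :=
        (continuous_snd.tendsto ((0, v) : ℝ × ℝ)).eventually (gt_mem_nhds hv)
      filter_upwards [this] with q hq1 hq
      rw [r.mem_D] at hq
      push Not at hq
      rcases lt_or_gt_of_ne hq.1 with h | h
      · exact Or.inr ⟨h, hq1⟩
      · exact Or.inl ⟨h, hq1⟩
    · exact fun q hq => hDR q hq.1 hq.2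
    · exact fun q hq => hDL q hq.1 hq.2
  · intro q h1 h2 y' hy'
    rw [abs_kk_eq hT.odd hB.odd (y' := yy (r.e q)) (by rw [hy', hyy2]), hUR q h1 h2, habs η hη]
  · intro q h1 h2 y' hy'
    rw [abs_kk_eq hT.odd hB.odd (y' := yy (r.e q)) (by rw [hy', hyy2]), hUL q h1 h2, habs η hη]
  · intro q h1 h2 y' hy'
    rw [abs_kk_eq hT.odd hB.odd (y' := yy (r.e q)) (by rw [hy', hyy2]), hDL q h1 h2,
      habs (-η) hηn]
  · intro q h1 h2 y' hy'
    rw [abs_kk_eq hT.odd hB.odd (y' := yy (r.e q)) (by rw [hy', hyy2]), hDR q h1 h2,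
      habs (-η) hηn]

end

end Config

end Pool.Agent.Lib.MP_55d555_gt
end

section

set_option autoImplicit false
set_option linter.unusedSectionVars false

/-!
The global argument on the surface: the values attached to the edges of an alternating diagram.
-/

namespace Pool.Agent.Lib.MP_55d555_gt

open Set Topology Filter

namespace Config

variable {S F : Type*} [TopologicalSpace S] [TopologicalSpace F] {n : ℕ}

/-- all the hypotheses on the two odd lifts -/
structure Setup (c : Config S F (Fin n × UnitAddCircle)) (G : S → ℂ) (R : ℝ)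
    (θ : S × ℂ → UnitAddCircle) (fT fB : S × ℂ → ℝ) : Prop where
  hG : Continuous G
  hlink : ∀ x, G x = 0 ↔ x ∈ c.link
  hns : ∀ x ∈ c.link, ∀ U : Set S, IsOpen U → x ∈ U → ¬ ∃ y : S → ℂ,
      ContinuousOn y (U \ c.link) ∧ ∀ z ∈ U \ c.link, y z ^ 2 = G z
  hθ : ContinuousOn θ (dbl G univ)
  hT : OddLift G θ c.top fT
  hB : OddLift G θ c.flip.top fB
  hR : ∀ τ, |c.t τ| < R
  hd : c.AltDiagram

/-- the value attached to a point of the projection -/
noncomputable def cval (c : Config S F (Fin n × UnitAddCircle)) (G : S → ℂ) (R : ℝ)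
    (fT fB : S × ℂ → ℝ) (x : F) : ℝ :=
  open Classical in if h : ∃ r, c.HasC G R fT fB x r then h.choose else 0

variable {c : Config S F (Fin n × UnitAddCircle)} {G : S → ℂ} {R : ℝ}
    {θ : S × ℂ → UnitAddCircle} {fT fB : S × ℂ → ℝ}

theorem Setup.cval_eq (hs : c.Setup G R θ fT fB) {x : F} {r : ℝ}
    (h : c.HasC G R fT fB x r) : c.cval G R fT fB x = r := by
  have h' : ∃ r, c.HasC G R fT fB x r := ⟨r, h⟩
  unfold cval
  rw [dif_pos h']
  exact h'.choose_spec.unique hs.hT.odd hs.hB.odd h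

section

variable [T2Space F] [CompactSpace F] [T2Space S]

theorem Setup.near_reg (hs : c.Setup G R θ fT fB) {i : Fin n} {a : ℝ}
    (h : (i, (a : UnitAddCircle)) ∉ c.crossing) :
    (∀ᶠ w : ℝ in 𝓝 a, c.cval G R fT fB (c.p (i, (w : UnitAddCircle)))
      = c.cval G R fT fB (c.p (i, (a : UnitAddCircle)))) ∧
    (∀ᶠ x' in 𝓝 (c.p (i, (a : UnitAddCircle))), x' ∈ range c.p →
      c.cval G R fT fB x' = c.cval G R fT fB (c.p (i, (a : UnitAddCircle)))) := by
  obtain ⟨r, α, hα, hαi, hα0, hra⟩ := hs.hd.exists_reg h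
  obtain ⟨k1, k2, h1, _, _⟩ := r.values hs.hR hs.hG (fun x hx => (hs.hlink x).1 hx) hs.hT hs.hB
  have h2 : ∀ u, c.cval G R fT fB (r.e (u, 0)) = (k1 + k2) ^ 2 := fun u => hs.cval_eq (h1 u)
  have h3 : ∀ u, c.cval G R fT fB (c.p (i, (α u : UnitAddCircle))) = (k1 + k2) ^ 2 := by
    intro u
    rw [← hra, r.hpa, h2]
  have h4 : c.cval G R fT fB (c.p (i, (a : UnitAddCircle))) = (k1 + k2) ^ 2 := by
    rw [← hα0]; exact h3 0
  constructor
  · filter_upwards [nhds_range hα hαi hα0] with w hw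
    obtain ⟨u, rfl⟩ := hw
    rw [h3, h4]
  · have h5 : c.p (i, (a : UnitAddCircle)) ∈ range r.e := ⟨(0, 0), by
      rw [← r.hpa, hra, hα0]⟩
    filter_upwards [r.he.isOpen_range.mem_nhds h5] with x' hx' hD
    obtain ⟨q, rfl⟩ := hx'
    have h6 := r.mem_D.1 hD
    have h7 : q = (q.1, 0) := Prod.ext rfl h6
    rw [h7, h2, h4]

theorem Setup.near_cross (hs : c.Setup G R θ fT fB) {i j : Fin n} {a b : ℝ}
    (hne : (i, (a : UnitAddCircle)) ≠ (j, (b : UnitAddCircle)))
    (hp : c.p (i, (a : UnitAddCircle)) = c.p (j, (b : UnitAddCircle)))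
    (ht : c.t (j, (b : UnitAddCircle)) < c.t (i, (a : UnitAddCircle))) :
    ∃ A B B' : ℝ, 2 * A ≤ B + B' ∧ (B + B' = 2 * A → B = A ∧ B' = A) ∧
      (∀ᶠ w : ℝ in 𝓝[>] a, c.cval G R fT fB (c.p (i, (w : UnitAddCircle))) = A) ∧
      (∀ᶠ w : ℝ in 𝓝[<] a, c.cval G R fT fB (c.p (i, (w : UnitAddCircle))) = A) ∧
      (((∀ᶠ w : ℝ in 𝓝[>] b, c.cval G R fT fB (c.p (j, (w : UnitAddCircle))) = B) ∧
      (∀ᶠ w : ℝ in 𝓝[<] b, c.cval G R fT fB (c.p (j, (w : UnitAddCircle))) = B')) ∨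
      ((∀ᶠ w : ℝ in 𝓝[>] b, c.cval G R fT fB (c.p (j, (w : UnitAddCircle))) = B') ∧
      (∀ᶠ w : ℝ in 𝓝[<] b, c.cval G R fT fB (c.p (j, (w : UnitAddCircle))) = B))) ∧
      (∀ᶠ x' in 𝓝 (c.p (i, (a : UnitAddCircle))), x' ∈ range c.p →
        x' ≠ c.p (i, (a : UnitAddCircle)) →
        c.cval G R fT fB x' = A ∨ c.cval G R fT fB x' = B ∨ c.cval G R fT fB x' = B') := by
  obtain ⟨r, α, β, hs0, hα, hαi, hα0, hβ, hβi, hβ0, hra, hrb⟩ :=
    hs.hd.exists_cross hne hp (s0 := (c.t (i, (a : UnitAddCircle)) +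
      c.t (j, (b : UnitAddCircle))) / 2) (by linarith) (by linarith)
  obtain ⟨yN, FN, aU, aD, bR, bL, hmid⟩ := r.exists_mid hs.hG (fun x hx => (hs.hlink x).1 hx)
    hs.hθ hs.hT hs.hB
  obtain ⟨η, hη, v1, v2, v3, v4, -, -, -, -⟩ := r.values hs.hR hs.hG hs.hlink hs.hns hs.hT hs.hB
    hmid
  have hη2 : η ^ 2 = 1 := by rcases hη with h | h <;> rw [h] <;> norm_num
  have w1 : ∀ u, 0 < u → c.cval G R fT fB (r.e (u, 0)) = ((aU : ℝ) - aD) ^ 2 := by
    intro u hu
    rw [hs.cval_eq (v1 u hu)]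
    linear_combination ((aU : ℝ) - aD) ^ 2 * hη2
  have w2 : ∀ u, u < 0 → c.cval G R fT fB (r.e (u, 0)) = ((aU : ℝ) - aD) ^ 2 := by
    intro u hu
    rw [hs.cval_eq (v2 u hu)]
    linear_combination ((aU : ℝ) - aD) ^ 2 * hη2
  have w3 : ∀ v, 0 < v → c.cval G R fT fB (r.e (0, v)) = (2 * (aU : ℝ) - bR - bL) ^ 2 := by
    intro v hv
    rw [hs.cval_eq (v3 v hv)]
    linear_combination (2 * (aU : ℝ) - bR - bL) ^ 2 * hη2
  have w4 : ∀ v, v < 0 → c.cval G R fT fB (r.e (0, v)) = (2 * (aD : ℝ) - bR - bL) ^ 2 := by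
    intro v hv
    rw [hs.cval_eq (v4 v hv)]
    linear_combination (2 * (aD : ℝ) - bR - bL) ^ 2 * hη2
  have ea : ∀ u, c.p (i, (α u : UnitAddCircle)) = r.e (u, 0) := fun u => by rw [← hra, r.hpa]
  have eb : ∀ v, c.p (j, (β v : UnitAddCircle)) = r.e (0, v) := fun v => by rw [← hrb, r.hpb]
  refine ⟨((aU : ℝ) - aD) ^ 2, (2 * (aU : ℝ) - bR - bL) ^ 2, (2 * (aD : ℝ) - bR - bL) ^ 2,
    ?_, ?_, ?_, ?_, ?_, ?_⟩
  · nlinarith [sq_nonneg ((aU : ℝ) + aD - bR - bL)]
  · intro h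
    have h1 : ((aU : ℝ) + aD - bR - bL) ^ 2 = 0 := by nlinarith
    have h2 : (aU : ℝ) + aD - bR - bL = 0 := by simpa using h1
    constructor
    · have : 2 * (aU : ℝ) - bR - bL = aU - aD := by linarith
      rw [this]
    · have : 2 * (aD : ℝ) - bR - bL = -(aU - aD) := by linarith
      rw [this]; ring
  · rcases sides hα hαi hα0 with ⟨h1, _⟩ | ⟨h1, _⟩
    · filter_upwards [h1] with w hw
      obtain ⟨u, hu, rfl⟩ := hw
      rw [ea, w1 u hu]
    · filter_upwards [h1] with w hw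
      obtain ⟨u, hu, rfl⟩ := hw
      rw [ea, w2 u hu]
  · rcases sides hα hαi hα0 with ⟨_, h1⟩ | ⟨_, h1⟩
    · filter_upwards [h1] with w hw
      obtain ⟨u, hu, rfl⟩ := hw
      rw [ea, w2 u hu]
    · filter_upwards [h1] with w hw
      obtain ⟨u, hu, rfl⟩ := hw
      rw [ea, w1 u hu]
  · rcases sides hβ hβi hβ0 with ⟨h1, h2⟩ | ⟨h1, h2⟩
    · left
      constructor
      · filter_upwards [h1] with w hw
        obtain ⟨u, hu, rfl⟩ := hw
        rw [eb, w3 u hu]
      · filter_upwards [h2] with w hw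
        obtain ⟨u, hu, rfl⟩ := hw
        rw [eb, w4 u hu]
    · right
      constructor
      · filter_upwards [h1] with w hw
        obtain ⟨u, hu, rfl⟩ := hw
        rw [eb, w4 u hu]
      · filter_upwards [h2] with w hw
        obtain ⟨u, hu, rfl⟩ := hw
        rw [eb, w3 u hu]
  · have h5 : c.p (i, (a : UnitAddCircle)) = r.e (0, 0) := by
      rw [← ea, hα0]
    have h5' : c.p (i, (a : UnitAddCircle)) ∈ range r.e := ⟨(0, 0), h5.symm⟩
    filter_upwards [r.he.isOpen_range.mem_nhds h5'] with x' hx' hD hx0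
    obtain ⟨⟨u, v⟩, rfl⟩ := hx'
    rcases r.mem_D.1 hD with h6 | h6
    · simp only at h6
      subst h6
      rcases lt_trichotomy v 0 with h | h | h
      · exact Or.inr (Or.inr (w4 v h))
      · subst h; exact absurd h5.symm hx0
      · exact Or.inr (Or.inl (w3 v h))
    · simp only at h6
      subst h6
      rcases lt_trichotomy u 0 with h | h | h
      · exact Or.inl (w2 u h)
      · subst h; exact absurd h5.symm hx0
      · exact Or.inl (w1 u h)

end

section Shift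

variable {V : Fin n × UnitAddCircle → ℝ}

theorem shift_right {i : Fin n} {a b v : ℝ} (hab : (b : UnitAddCircle) = (a : UnitAddCircle))
    (h : ∀ᶠ w : ℝ in 𝓝[>] a, V (i, (w : UnitAddCircle)) = v) :
    ∀ᶠ w : ℝ in 𝓝[>] b, V (i, (w : UnitAddCircle)) = v := by
  have h2 : ((b - a : ℝ) : UnitAddCircle) = 0 := by
    rw [AddCircle.coe_sub, hab, sub_self]
  have ht : Tendsto (fun w : ℝ => w - (b - a)) (𝓝[>] b) (𝓝[>] a) := by
    apply tendsto_nhdsWithin_of_tendsto_nhds_of_eventually_within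
    · have : Tendsto (fun w : ℝ => w - (b - a)) (𝓝 b) (𝓝 (b - (b - a))) :=
        (continuous_id.sub continuous_const).tendsto b
      rw [sub_sub_cancel] at this
      exact this.mono_left nhdsWithin_le_nhds
    · filter_upwards [self_mem_nhdsWithin] with w hw
      simp only [mem_Ioi] at hw ⊢
      linarith
  filter_upwards [ht.eventually h] with w hw
  rw [AddCircle.coe_sub, h2, sub_zero] at hw
  exact hw

theorem shift_left {i : Fin n} {a b v : ℝ} (hab : (b : UnitAddCircle) = (a : UnitAddCircle))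
    (h : ∀ᶠ w : ℝ in 𝓝[<] a, V (i, (w : UnitAddCircle)) = v) :
    ∀ᶠ w : ℝ in 𝓝[<] b, V (i, (w : UnitAddCircle)) = v := by
  have h2 : ((b - a : ℝ) : UnitAddCircle) = 0 := by
    rw [AddCircle.coe_sub, hab, sub_self]
  have ht : Tendsto (fun w : ℝ => w - (b - a)) (𝓝[<] b) (𝓝[<] a) := by
    apply tendsto_nhdsWithin_of_tendsto_nhds_of_eventually_within
    · have : Tendsto (fun w : ℝ => w - (b - a)) (𝓝 b) (𝓝 (b - (b - a))) :=
        (continuous_id.sub continuous_const).tendsto b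
      rw [sub_sub_cancel] at this
      exact this.mono_left nhdsWithin_le_nhds
    · filter_upwards [self_mem_nhdsWithin] with w hw
      simp only [mem_Iio] at hw ⊢
      linarith
  filter_upwards [ht.eventually h] with w hw
  rw [AddCircle.coe_sub, h2, sub_zero] at hw
  exact hw

/-- the value just to the right of a parameter -/
noncomputable def valR (V : Fin n × UnitAddCircle → ℝ) (τ : Fin n × UnitAddCircle) : ℝ :=
  open Classical in
  if h : ∃ v : ℝ, ∃ a : ℝ, (a : UnitAddCircle) = τ.2 ∧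
    ∀ᶠ w : ℝ in 𝓝[>] a, V (τ.1, (w : UnitAddCircle)) = v then h.choose else 0

/-- the value just to the left of a parameter -/
noncomputable def valL (V : Fin n × UnitAddCircle → ℝ) (τ : Fin n × UnitAddCircle) : ℝ :=
  open Classical in
  if h : ∃ v : ℝ, ∃ a : ℝ, (a : UnitAddCircle) = τ.2 ∧
    ∀ᶠ w : ℝ in 𝓝[<] a, V (τ.1, (w : UnitAddCircle)) = v then h.choose else 0

theorem valR_eq {i : Fin n} {a v : ℝ}
    (h : ∀ᶠ w : ℝ in 𝓝[>] a, V (i, (w : UnitAddCircle)) = v) :
    valR V (i, (a : UnitAddCircle)) = v := by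
  have h' : ∃ v : ℝ, ∃ a' : ℝ, (a' : UnitAddCircle) = (i, (a : UnitAddCircle)).2 ∧
    ∀ᶠ w : ℝ in 𝓝[>] a', V ((i, (a : UnitAddCircle)).1, (w : UnitAddCircle)) = v :=
    ⟨v, a, rfl, h⟩
  unfold valR
  rw [dif_pos h']
  obtain ⟨a', h1, h2⟩ := h'.choose_spec
  have h3 := shift_right (V := V) (i := i) (b := a) h1.symm h2
  obtain ⟨w, hw1, hw2⟩ := (h3.and h).exists
  rw [← hw1, hw2]

theorem valL_eq {i : Fin n} {a v : ℝ}
    (h : ∀ᶠ w : ℝ in 𝓝[<] a, V (i, (w : UnitAddCircle)) = v) :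
    valL V (i, (a : UnitAddCircle)) = v := by
  have h' : ∃ v : ℝ, ∃ a' : ℝ, (a' : UnitAddCircle) = (i, (a : UnitAddCircle)).2 ∧
    ∀ᶠ w : ℝ in 𝓝[<] a', V ((i, (a : UnitAddCircle)).1, (w : UnitAddCircle)) = v :=
    ⟨v, a, rfl, h⟩
  unfold valL
  rw [dif_pos h']
  obtain ⟨a', h1, h2⟩ := h'.choose_spec
  have h3 := shift_left (V := V) (i := i) (b := a) h1.symm h2
  obtain ⟨w, hw1, hw2⟩ := (h3.and h).exists
  rw [← hw1, hw2]

end Shift

section

variable [T2Space F] [CompactSpace F] [T2Space S]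

/-- By the counting argument, all values near a crossing agree. -/
theorem Setup.cross_const (hs : c.Setup G R θ fT fB) {i j : Fin n} {a b : ℝ}
    (hne : (i, (a : UnitAddCircle)) ≠ (j, (b : UnitAddCircle)))
    (hp : c.p (i, (a : UnitAddCircle)) = c.p (j, (b : UnitAddCircle)))
    (ht : c.t (j, (b : UnitAddCircle)) < c.t (i, (a : UnitAddCircle))) :
    ∃ A : ℝ, ∀ᶠ x' in 𝓝 (c.p (i, (a : UnitAddCircle))), x' ∈ range c.p →
        x' ≠ c.p (i, (a : UnitAddCircle)) → c.cval G R fT fB x' = A := by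
  classical
  set V : Fin n × UnitAddCircle → ℝ := fun τ => c.cval G R fT fB (c.p τ) with hV
  -- the other parameter over a crossing
  have hoth : ∀ τ : c.crossing, ∃ τ' : c.crossing, (τ' : Fin n × UnitAddCircle) ≠ τ ∧
      c.p τ' = c.p τ := by
    rintro ⟨τ, τ', h1, h2⟩
    exact ⟨⟨τ', τ, h1.symm, h2.symm⟩, h1, h2⟩
  choose oth hoth1 hoth2 using hoth
  have hinv : ∀ τ, oth (oth τ) = τ := by
    intro τ
    apply Subtype.ext
    exact hs.hd.unique_other (hoth1 (oth τ)) (hoth2 (oth τ)) (hoth1 τ).symm (hoth2 τ).symm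
  have hov : ∀ τ : c.crossing, c.isOver (oth τ) ↔ ¬ c.isOver τ := by
    intro τ
    rw [hs.hd.over_iff (hoth1 τ) (hoth2 τ), hs.hd.over_iff (hoth1 τ).symm (hoth2 τ).symm, not_lt]
    constructor
    · exact fun h => h.le
    · intro h
      exact lt_of_le_of_ne h fun e => hoth1 τ (hs.hd.inj _ _ (hoth2 τ) e.symm)
  -- values near the crossings
  have hfacts : ∀ τ : c.crossing, c.isOver τ → ∃ A B B' : ℝ, 2 * A ≤ B + B' ∧
      valR V τ = A ∧ valL V τ = A ∧
      ((valR V (oth τ) = B ∧ valL V (oth τ) = B') ∨ (valR V (oth τ) = B' ∧ valL V (oth τ) = B)) ∧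
      (∀ a : ℝ, (a : UnitAddCircle) = τ.1.2 → (∀ᶠ w : ℝ in 𝓝[>] a,
        V (τ.1.1, (w : UnitAddCircle)) = valR V τ) ∧ (∀ᶠ w : ℝ in 𝓝[<] a,
        V (τ.1.1, (w : UnitAddCircle)) = valL V τ)) ∧
      (∀ b : ℝ, (b : UnitAddCircle) = (oth τ).1.2 → (∀ᶠ w : ℝ in 𝓝[>] b,
        V ((oth τ).1.1, (w : UnitAddCircle)) = valR V (oth τ)) ∧ (∀ᶠ w : ℝ in 𝓝[<] b,
        V ((oth τ).1.1, (w : UnitAddCircle)) = valL V (oth τ))) := by
    intro τ hτ
    have ho1 := hoth1 τ
    have ho2 := hoth2 τ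
    have ho3 := (hs.hd.over_iff ho1 ho2).1 hτ
    generalize oth τ = τ' at ho1 ho2 ho3
    obtain ⟨⟨i, x⟩, hx⟩ := τ
    obtain ⟨⟨j, y⟩, hy⟩ := τ'
    obtain ⟨a, rfl⟩ := QuotientAddGroup.mk_surjective x
    obtain ⟨b, rfl⟩ := QuotientAddGroup.mk_surjective y
    obtain ⟨A, B, B', h1, _, h3, h4, h5, _⟩ := hs.near_cross (Ne.symm ho1) ho2.symm ho3
    refine ⟨A, B, B', h1, valR_eq h3, valL_eq h4, ?_, ?_, ?_⟩
    · rcases h5 with ⟨h5, h6⟩ | ⟨h5, h6⟩
      · exact Or.inl ⟨valR_eq h5, valL_eq h6⟩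
      · exact Or.inr ⟨valR_eq h5, valL_eq h6⟩
    · intro a' ha'
      constructor
      · have : valR V (i, (a : UnitAddCircle)) = A := valR_eq h3
        exact shift_right ha' (by rw [this]; exact h3)
      · have : valL V (i, (a : UnitAddCircle)) = A := valL_eq h4
        exact shift_left ha' (by rw [this]; exact h4)
    · intro b' hb'
      rcases h5 with ⟨h5, h6⟩ | ⟨h5, h6⟩
      · constructor
        · have : valR V (j, (b : UnitAddCircle)) = B := valR_eq h5
          exact shift_right hb' (by rw [this]; exact h5)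
        · have : valL V (j, (b : UnitAddCircle)) = B' := valL_eq h6
          exact shift_left hb' (by rw [this]; exact h6)
      · constructor
        · have : valR V (j, (b : UnitAddCircle)) = B' := valR_eq h5
          exact shift_right hb' (by rw [this]; exact h5)
        · have : valL V (j, (b : UnitAddCircle)) = B := valL_eq h6
          exact shift_left hb' (by rw [this]; exact h6)
  have hsides : ∀ (i : Fin n) (a : ℝ), (i, (a : UnitAddCircle)) ∈ c.crossing →
      (∀ᶠ w : ℝ in 𝓝[>] a, V (i, (w : UnitAddCircle)) = valR V (i, (a : UnitAddCircle))) ∧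
      (∀ᶠ w : ℝ in 𝓝[<] a, V (i, (w : UnitAddCircle)) = valL V (i, (a : UnitAddCircle))) := by
    intro i a ha
    by_cases h : c.isOver (i, (a : UnitAddCircle))
    · obtain ⟨A, B, B', _, _, _, _, h5, _⟩ := hfacts ⟨_, ha⟩ h
      exact h5 a rfl
    · have h' : c.isOver (oth ⟨_, ha⟩) := (hov ⟨_, ha⟩).2 h
      obtain ⟨A, B, B', _, _, _, _, _, h6⟩ := hfacts (oth ⟨_, ha⟩) h'
      rw [hinv] at h6
      exact h6 a rfl
  have hkey := eq_of_alternating (Cr := c.crossing) hs.hd.fin (V := V) (VR := valR V)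
    (VL := valL V) (ov := c.isOver)
    (fun i a ha => (hs.near_reg ha).1) (fun i a ha => (hsides i a ha).1)
    (fun i a ha => (hsides i a ha).2)
    (fun i a b hab hb1 ha hb hfree => by
      rw [hs.hd.alt i a b hab hb1 ha hb hfree, hs.hd.under_iff_not_over hb])
    oth hinv hov (fun τ hτ => by
      obtain ⟨A, B, B', h1, h2, h3, h4, _, _⟩ := hfacts τ hτ
      rcases h4 with ⟨h4, h5⟩ | ⟨h4, h5⟩ <;> rw [h2, h3, h4, h5] <;> linarith)
  obtain ⟨A, B, B', h1, h2, h3, h4, h5, h6⟩ := hs.near_cross hne hp ht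
  have hcr : (i, (a : UnitAddCircle)) ∈ c.crossing := ⟨(j, (b : UnitAddCircle)), hne.symm, hp.symm⟩
  have ho : oth ⟨_, hcr⟩ = (j, (b : UnitAddCircle)) :=
    hs.hd.unique_other (hoth1 ⟨_, hcr⟩) (hoth2 ⟨_, hcr⟩) hne.symm hp.symm
  have h7 := hkey ⟨_, hcr⟩
  rw [ho] at h7
  have e1 : valR V (i, (a : UnitAddCircle)) = A := valR_eq h3
  have e2 : valL V (i, (a : UnitAddCircle)) = A := valL_eq h4
  have h8 : B + B' = 2 * A := by
    rcases h5 with ⟨h5, h5'⟩ | ⟨h5, h5'⟩
    · have e3 : valR V (j, (b : UnitAddCircle)) = B := valR_eq h5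
      have e4 : valL V (j, (b : UnitAddCircle)) = B' := valL_eq h5'
      rw [e1, e2, e3, e4] at h7
      linarith
    · have e3 : valR V (j, (b : UnitAddCircle)) = B' := valR_eq h5
      have e4 : valL V (j, (b : UnitAddCircle)) = B := valL_eq h5'
      rw [e1, e2, e3, e4] at h7
      linarith
  obtain ⟨h9, h10⟩ := h2 h8
  refine ⟨A, ?_⟩
  filter_upwards [h6] with x' hx' hD hx0
  rcases hx' hD hx0 with h | h | h
  · exact h
  · rw [h, h9]
  · rw [h, h10]

/-- Near each point of the projection the values agree off the crossings. -/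
theorem Setup.near_D (hs : c.Setup G R θ fT fB) {x : F} (hx : x ∈ range c.p) :
    ∃ A : ℝ, ∀ᶠ x' in 𝓝 x, x' ∈ range c.p → x' ∉ c.p '' c.crossing →
      c.cval G R fT fB x' = A := by
  obtain ⟨⟨i, y⟩, rfl⟩ := hx
  obtain ⟨a, rfl⟩ := QuotientAddGroup.mk_surjective y
  by_cases hcr : (i, (a : UnitAddCircle)) ∈ c.crossing
  · obtain ⟨⟨j, y'⟩, h1, h2⟩ := hcr
    obtain ⟨b, rfl⟩ := QuotientAddGroup.mk_surjective y'
    have hcr : (i, (a : UnitAddCircle)) ∈ c.crossing := ⟨(j, (b : UnitAddCircle)), h1, h2⟩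
    have hgen : ∀ A : ℝ, (∀ᶠ x' in 𝓝 (c.p (i, (a : UnitAddCircle))), x' ∈ range c.p →
        x' ≠ c.p (i, (a : UnitAddCircle)) → c.cval G R fT fB x' = A) →
        ∀ᶠ x' in 𝓝 (c.p (i, (a : UnitAddCircle))), x' ∈ range c.p →
        x' ∉ c.p '' c.crossing → c.cval G R fT fB x' = A := by
      intro A hA
      filter_upwards [hA] with x' hx' hD hX
      apply hx' hD
      rintro rfl
      exact hX ⟨_, hcr, rfl⟩
    rcases lt_trichotomy (c.t (j, (b : UnitAddCircle))) (c.t (i, (a : UnitAddCircle)))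
      with h | h | h
    · obtain ⟨A, hA⟩ := hs.cross_const h1.symm h2.symm h
      exact ⟨A, hgen A hA⟩
    · exact absurd (hs.hd.inj _ _ h2 h) h1
    · obtain ⟨A, hA⟩ := hs.cross_const h1 h2 h
      rw [h2] at hA
      exact ⟨A, hgen A hA⟩
  · refine ⟨c.cval G R fT fB (c.p (i, (a : UnitAddCircle))), ?_⟩
    filter_upwards [(hs.near_reg hcr).2] with x' hx' hD _
    exact hx' hD

/-- Every point of the projection is a limit of points of the projection off the crossings. -/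
theorem Setup.frequently_D (hs : c.Setup G R θ fT fB) {x : F} (hx : x ∈ range c.p) :
    ∃ᶠ x' in 𝓝 x, x' ∈ range c.p ∧ x' ∉ c.p '' c.crossing := by
  obtain ⟨⟨i, y⟩, rfl⟩ := hx
  obtain ⟨a, rfl⟩ := QuotientAddGroup.mk_surjective y
  by_cases hcr : (i, (a : UnitAddCircle)) ∈ c.crossing
  · obtain ⟨⟨j, y'⟩, h1, h2⟩ := hcr
    obtain ⟨b, rfl⟩ := QuotientAddGroup.mk_surjective y'
    have hfin : (c.p '' c.crossing).Finite := hs.hd.fin.image _
    obtain ⟨e, α, β, he, hα, hβ, hα0, hβ0, e1, e2, e3⟩ := hs.hd.cross i j a b h1.symm h2.symm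
    have h5 : c.p (i, (a : UnitAddCircle)) = e (0, 0) := by
      rw [← e1, hα0]
    change ∃ᶠ x' in 𝓝 (c.p (i, (a : UnitAddCircle))), x' ∈ range c.p ∧ x' ∉ c.p '' c.crossing
    rw [h5]
    have hclosed : IsClosed (c.p '' c.crossing \ {e (0, 0)}) :=
      (hfin.subset sdiff_subset).isClosed
    have ht : Tendsto (fun u : ℝ => e (u, 0)) (𝓝[≠] 0) (𝓝 (e (0, 0))) := by
      have : Tendsto (fun u : ℝ => e (u, 0)) (𝓝 0) (𝓝 (e (0, 0))) :=
        (he.continuous.comp (continuous_id.prodMk continuous_const)).tendsto 0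
      exact this.mono_left nhdsWithin_le_nhds
    apply ht.frequently
    apply Eventually.frequently
    have hev := ht.eventually (hclosed.isOpen_compl.mem_nhds
      (by simp : e (0, 0) ∈ (c.p '' c.crossing \ {e (0, 0)})ᶜ))
    filter_upwards [hev, self_mem_nhdsWithin] with u hu hu0
    refine ⟨⟨_, e1 u⟩, fun h => hu ⟨h, ?_⟩⟩
    intro h6
    have := he.injective (mem_singleton_iff.1 h6)
    simp only [Prod.mk.injEq, and_true] at this
    exact hu0 this
  · rw [Filter.frequently_iff]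
    intro W hW
    refine ⟨_, mem_of_mem_nhds hW, ⟨_, rfl⟩, ?_⟩
    rintro ⟨τ, hτ, hτ2⟩
    by_cases he : τ = (i, (a : UnitAddCircle))
    · rw [he] at hτ; exact hcr hτ
    · exact hcr ⟨τ, he, hτ2⟩

end

end Config

end Pool.Agent.Lib.MP_55d555_gt
end

section

set_option autoImplicit false
set_option linter.unusedSectionVars false

/-!
The global argument, second part: the two odd lifts agree.
-/

namespace Pool.Agent.Lib.MP_55d555_gt

open Set Topology Filter

/-- a local square root -/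
theorem local_sqrt {X : Type*} [TopologicalSpace X] {g : X → ℂ} (hg : Continuous g) {x : X}
    (h0 : g x ≠ 0) {y0 : ℂ} (hy : y0 ^ 2 = g x) :
    ∃ y : X → ℂ, ContinuousAt y x ∧ y x = y0 ∧ ∀ x', y x' ^ 2 = g x' := by
  refine ⟨fun x' => y0 * (g x' / g x) ^ ((2 : ℂ)⁻¹), ?_, ?_, ?_⟩
  · apply ContinuousAt.mul continuousAt_const
    have h1 : ContinuousAt (fun w : ℂ => w ^ ((2 : ℂ)⁻¹)) (g x / g x) := by
      apply continuousAt_cpow_const
      rw [div_self h0]
      exact Complex.one_mem_slitPlane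
    exact ContinuousAt.comp (f := fun x' => g x' / g x) (x := x) h1
      (hg.continuousAt.div_const _)
  · simp only
    rw [div_self h0, Complex.one_cpow, mul_one]
  · intro x'
    simp only
    rw [mul_pow, hy]
    have := Complex.cpow_nat_inv_pow (g x' / g x) (n := 2) (by norm_num)
    push_cast at this
    rw [this, mul_div_cancel₀ _ h0]

namespace Config

variable {S F : Type*} [TopologicalSpace S] [TopologicalSpace F] {n : ℕ}
variable {c : Config S F (Fin n × UnitAddCircle)} {G : S → ℂ} {R : ℝ}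
    {θ : S × ℂ → UnitAddCircle} {fT fB : S × ℂ → ℝ}

theorem Setup.G_ne_zero (hs : c.Setup G R θ fT fB) {z : S} (hz : z ∈ c.top) : G z ≠ 0 :=
  fun h => c.top_disjoint_link hz ((hs.hlink z).1 h)

theorem Setup.level_top (hs : c.Setup G R θ fT fB) (x : F) : c.h (x, R) ∈ c.top := by
  rw [mem_top_h]
  intro τ _
  exact lt_of_le_of_lt (le_abs_self _) (hs.hR τ)

/-- The difference of the lifts is an integer. -/
theorem Setup.kk_int (hs : c.Setup G R θ fT fB) {x : F} (hx : x ∉ range c.p) {s : ℝ} {y : ℂ}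
    (hy : y ^ 2 = G (c.h (x, s))) :
    ∃ m : ℤ, fT (c.h (x, s), y) - fB (c.h (x, s), y) = m := by
  have h1 : c.h (x, s) ∈ c.top ∧ c.h (x, s) ∈ c.flip.top := by
    rw [top_inter_flip_top]
    exact ⟨x, s, rfl, hx⟩
  have h2 := hs.G_ne_zero h1.1
  have e1 := hs.hT.lift (c.h (x, s), y) ⟨h1.1, hy, h2⟩
  have e2 := hs.hB.lift (c.h (x, s), y) ⟨h1.2, hy, h2⟩
  have e3 : ((fT (c.h (x, s), y) - fB (c.h (x, s), y) : ℝ) : UnitAddCircle) = 0 := by
    rw [AddCircle.coe_sub, e1, e2, sub_self]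
  rw [AddCircle.coe_eq_zero_iff] at e3
  obtain ⟨m, hm⟩ := e3
  exact ⟨m, by simpa using hm.symm⟩

section

variable [T2Space F] [CompactSpace F] [T2Space S]

theorem isClosed_range_p : IsClosed (range c.p) := (isCompact_range c.hp).isClosed

/-- Off the projection the absolute value of the difference is locally constant. -/
theorem Setup.near_off (hs : c.Setup G R θ fT fB) {x : F} (hx : x ∉ range c.p) :
    ∃ κ : ℝ, ∀ᶠ x' in 𝓝 x, ∀ y : ℂ, y ^ 2 = G (c.h (x', R)) →
      |c.kk R fT fB (x', y)| = κ := by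
  have hjc : Continuous fun x : F => c.h (x, R) :=
    c.hop.continuous.comp (continuous_id.prodMk continuous_const)
  have hgc : Continuous fun x : F => G (c.h (x, R)) := hs.hG.comp hjc
  have h0 : G (c.h (x, R)) ≠ 0 := hs.G_ne_zero (hs.level_top x)
  obtain ⟨y0, hy0⟩ := IsAlgClosed.exists_pow_nat_eq (G (c.h (x, R))) (n := 2) (by norm_num)
  obtain ⟨y, hyc, hyx, hy2⟩ := local_sqrt hgc (x := x) h0 hy0
  have hOD : ∀ᶠ x' in 𝓝 x, x' ∉ range c.p := isClosed_range_p.isOpen_compl.mem_nhds hx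
  have h1 : c.h (x, R) ∈ c.top ∧ c.h (x, R) ∈ c.flip.top := by
    rw [top_inter_flip_top]
    exact ⟨x, R, rfl, hx⟩
  -- continuity of the difference along the local section
  have hcont : ContinuousAt (fun x' => c.kk R fT fB (x', y x')) x := by
    have hm : ContinuousAt (fun x' : F => ((c.h (x', R), y x') : S × ℂ)) x :=
      hjc.continuousAt.prodMk hyc
    have key : ∀ {T : Set S} {f : S × ℂ → ℝ}, OddLift G θ T f → IsOpen T → c.h (x, R) ∈ T →
        ContinuousAt (fun x' => f (c.h (x', R), y x')) x := by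
      intro T f hf hT hxT
      have h2 : ContinuousWithinAt f (dbl G T) (c.h (x, R), y x) :=
        hf.cont _ ⟨hxT, hy2 x, h0⟩
      have h3 : Tendsto (fun x' : F => ((c.h (x', R), y x') : S × ℂ)) (𝓝 x)
          (𝓝[dbl G T] (c.h (x, R), y x)) := by
        apply tendsto_nhdsWithin_of_tendsto_nhds_of_eventually_within _ hm
        filter_upwards [hjc.continuousAt.eventually (hT.mem_nhds hxT)] with x' hx'
        exact ⟨hx', hy2 x', hs.G_ne_zero (hs.level_top x')⟩
      exact h2.tendsto.comp h3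
    exact (key hs.hT c.isOpen_top h1.1).sub (key hs.hB c.flip.isOpen_top h1.2)
  have hint : ∀ᶠ x' in 𝓝 x, ∃ m : ℤ, c.kk R fT fB (x', y x') = m := by
    filter_upwards [hOD] with x' hx'
    exact hs.kk_int hx' (hy2 x')
  have hconst : ∀ᶠ x' in 𝓝 x, c.kk R fT fB (x', y x') = c.kk R fT fB (x, y x) := by
    have hd : ∀ᶠ x' in 𝓝 x, |c.kk R fT fB (x', y x') - c.kk R fT fB (x, y x)| < 1 := by
      have := Metric.continuousAt_iff'.1 hcont 1 one_pos
      simpa [Real.dist_eq] using this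
    obtain ⟨m0, hm0⟩ := hs.kk_int hx (hy2 x)
    have hm0' : c.kk R fT fB (x, y x) = m0 := hm0
    filter_upwards [hd, hint] with x' h2 h3
    obtain ⟨m, hm⟩ := h3
    rw [hm, hm0'] at h2 ⊢
    have h4 : |((m - m0 : ℤ) : ℝ)| < 1 := by push_cast; exact h2
    rw [← Int.cast_abs] at h4
    have h5 : |m - m0| < 1 := by exact_mod_cast h4
    have h6 : m - m0 = 0 := by
      rw [abs_lt] at h5; omega
    have h7 : m = m0 := by omega
    rw [h7]
  refine ⟨|c.kk R fT fB (x, y x)|, ?_⟩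
  filter_upwards [hconst] with x' h2 y' hy'
  rw [← h2]
  exact abs_kk_eq hs.hT.odd hs.hB.odd (by rw [hy', hy2])

/-- the absolute value of the difference is constant near each point, off the projection,
provided the attached values vanish -/
theorem Setup.near_all (hs : c.Setup G R θ fT fB)
    (hzero : ∀ x ∈ range c.p, ∀ᶠ x' in 𝓝 x, x' ∈ range c.p → x' ∉ c.p '' c.crossing →
      c.cval G R fT fB x' = 0) (x : F) :
    ∃ κ : ℝ, ∀ᶠ x' in 𝓝 x, x' ∉ range c.p → ∀ y : ℂ, y ^ 2 = G (c.h (x', R)) →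
      |c.kk R fT fB (x', y)| = κ := by
  by_cases hx : x ∈ range c.p
  · have hz := hzero x hx
    obtain ⟨⟨i, y⟩, rfl⟩ := hx
    obtain ⟨a, rfl⟩ := QuotientAddGroup.mk_surjective y
    change ∃ κ : ℝ, ∀ᶠ x' in 𝓝 (c.p (i, (a : UnitAddCircle))), x' ∉ range c.p →
      ∀ y : ℂ, y ^ 2 = G (c.h (x', R)) → |c.kk R fT fB (x', y)| = κ
    change ∀ᶠ x' in 𝓝 (c.p (i, (a : UnitAddCircle))), x' ∈ range c.p →
      x' ∉ c.p '' c.crossing → c.cval G R fT fB x' = 0 at hz
    by_cases hcr : (i, (a : UnitAddCircle)) ∈ c.crossing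
    · obtain ⟨⟨j, y'⟩, h1, h2⟩ := hcr
      obtain ⟨b, rfl⟩ := QuotientAddGroup.mk_surjective y'
      -- the argument with the over strand first
      have key : ∀ (i j : Fin n) (a b : ℝ), (i, (a : UnitAddCircle)) ≠ (j, (b : UnitAddCircle)) →
          c.p (i, (a : UnitAddCircle)) = c.p (j, (b : UnitAddCircle)) →
          c.t (j, (b : UnitAddCircle)) < c.t (i, (a : UnitAddCircle)) →
          (∀ᶠ x' in 𝓝 (c.p (i, (a : UnitAddCircle))), x' ∈ range c.p →
            x' ∉ c.p '' c.crossing → c.cval G R fT fB x' = 0) →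
          ∃ κ : ℝ, ∀ᶠ x' in 𝓝 (c.p (i, (a : UnitAddCircle))), x' ∉ range c.p →
            ∀ y : ℂ, y ^ 2 = G (c.h (x', R)) → |c.kk R fT fB (x', y)| = κ := by
        intro i j a b hne hp ht hz
        obtain ⟨r, α, β, hs0, hα, hαi, hα0, hβ, hβi, hβ0, hra, hrb⟩ :=
          hs.hd.exists_cross hne hp (s0 := (c.t (i, (a : UnitAddCircle)) +
            c.t (j, (b : UnitAddCircle))) / 2) (by linarith) (by linarith)
        obtain ⟨yN, FN, aU, aD, bR, bL, hmid⟩ := r.exists_mid hs.hG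
          (fun x hx => (hs.hlink x).1 hx) hs.hθ hs.hT hs.hB
        obtain ⟨η, hη, v1, v2, v3, v4, w1, w2, w3, w4⟩ := r.values hs.hR hs.hG hs.hlink hs.hns
          hs.hT hs.hB hmid
        have hη2 : η ^ 2 = 1 := by rcases hη with h | h <;> rw [h] <;> norm_num
        have h5 : c.p (i, (a : UnitAddCircle)) = r.e (0, 0) := by
          rw [← r.hpa, hra, hα0]
        rw [h5] at hz
        -- points of the two strands near the crossing are not crossings
        have hnc : ∀ q : ℝ × ℝ, q ≠ (0, 0) → (q.1 = 0 ∨ q.2 = 0) →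
            r.e q ∉ c.p '' c.crossing := by
          rintro q hq0 hq ⟨τ, ⟨τ', h6, h7⟩, h8⟩
          have hτ := r.hcov τ ⟨q, h8.symm⟩
          have hτ' := r.hcov τ' ⟨q, by rw [h7]; exact h8.symm⟩
          rw [h8] at h7
          rcases hτ with ⟨u, rfl⟩ | ⟨v, rfl⟩
          · rw [r.hpa] at h8
            have e1 := r.he.injective h8
            rcases hτ' with ⟨u', rfl⟩ | ⟨v', rfl⟩
            · rw [r.hpa] at h7
              have e2 := r.he.injective h7
              rw [← e1] at e2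
              simp only [Prod.mk.injEq, and_true] at e2
              exact h6 (by rw [e2])
            · rw [r.hpb] at h7
              have e2 := r.he.injective h7
              rw [← e1] at e2
              simp only [Prod.mk.injEq] at e2
              apply hq0
              rw [← e1, ← e2.1]
          · rw [r.hpb] at h8
            have e1 := r.he.injective h8
            rcases hτ' with ⟨u', rfl⟩ | ⟨v', rfl⟩
            · rw [r.hpa] at h7
              have e2 := r.he.injective h7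
              rw [← e1] at e2
              simp only [Prod.mk.injEq] at e2
              apply hq0
              rw [← e1, ← e2.2]
            · rw [r.hpb] at h7
              have e2 := r.he.injective h7
              rw [← e1] at e2
              simp only [Prod.mk.injEq, true_and] at e2
              exact h6 (by rw [e2])
        have hval : ∀ d : ℝ × ℝ, (∀ ε : ℝ, 0 < ε → ε • d ≠ (0, 0)) →
            (∀ ε : ℝ, 0 < ε → (ε • d).1 = 0 ∨ (ε • d).2 = 0) →
            ∃ ε : ℝ, 0 < ε ∧ c.cval G R fT fB (r.e (ε • d)) = 0 := by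
          intro d hd0 hd1
          have ht : Tendsto (fun ε : ℝ => r.e (ε • d)) (𝓝[>] 0) (𝓝 (r.e (0, 0))) := by
            have : Tendsto (fun ε : ℝ => r.e (ε • d)) (𝓝 0) (𝓝 (r.e ((0 : ℝ) • d))) := by
              apply Continuous.tendsto
              exact r.he.continuous.comp (by fun_prop)
            rw [zero_smul] at this
            exact this.mono_left nhdsWithin_le_nhds
          have hev := (ht.eventually hz).and self_mem_nhdsWithin
          obtain ⟨ε, h6, h7⟩ := hev.exists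
          exact ⟨ε, h7, h6 (r.mem_D.2 (hd1 ε h7)) (hnc _ (hd0 ε h7) (hd1 ε h7))⟩
        obtain ⟨ε1, hε1, e1⟩ := hval (1, 0) (by
          intro ε hε h
          simp only [Prod.smul_mk, smul_eq_mul, mul_one, mul_zero, Prod.mk.injEq, and_true] at h
          exact ne_of_gt hε h) (by intro ε _; right; simp)
        obtain ⟨ε3, hε3, e3⟩ := hval (0, 1) (by
          intro ε hε h
          simp only [Prod.smul_mk, smul_eq_mul, mul_one, mul_zero, Prod.mk.injEq, true_and] at h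
          exact ne_of_gt hε h) (by intro ε _; left; simp)
        obtain ⟨ε4, hε4, e4⟩ := hval (0, -1) (by
          intro ε hε h
          simp only [Prod.smul_mk, smul_eq_mul, mul_zero, Prod.mk.injEq, true_and] at h
          linarith) (by intro ε _; left; simp)
        have f1 := hs.cval_eq (v1 ε1 hε1)
        have f3 := hs.cval_eq (v3 ε3 hε3)
        have f4 := hs.cval_eq (v4 (-ε4) (by linarith))
        have g1 : ((ε1 : ℝ) • ((1, 0) : ℝ × ℝ)) = (ε1, 0) := by simp
        have g3 : ((ε3 : ℝ) • ((0, 1) : ℝ × ℝ)) = (0, ε3) := by simp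
        have g4 : ((ε4 : ℝ) • ((0, -1) : ℝ × ℝ)) = (0, -ε4) := by simp
        rw [g1, f1] at e1
        rw [g3, f3] at e3
        rw [g4, f4] at e4
        have k1 : (aU : ℝ) - aD = 0 := by
          have : ((aU : ℝ) - aD) ^ 2 = 0 := by
            linear_combination e1 - ((aU : ℝ) - aD) ^ 2 * hη2
          simpa using this
        have k3 : 2 * (aU : ℝ) - bR - bL = 0 := by
          have : (2 * (aU : ℝ) - bR - bL) ^ 2 = 0 := by
            linear_combination e3 - (2 * (aU : ℝ) - bR - bL) ^ 2 * hη2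
          simpa using this
        have hκ2 : |(aU : ℝ) - bL| = |(aU : ℝ) - bR| := by
          have : (aU : ℝ) - bL = -(aU - bR) := by linarith
          rw [this, abs_neg]
        have hκ3 : |(aD : ℝ) - bL| = |(aU : ℝ) - bR| := by
          have : (aD : ℝ) - bL = -(aU - bR) := by linarith
          rw [this, abs_neg]
        have hκ4 : |(aD : ℝ) - bR| = |(aU : ℝ) - bR| := by
          have : (aD : ℝ) - bR = aU - bR := by linarith
          rw [this]
        refine ⟨|(aU : ℝ) - bR|, ?_⟩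
        have h5' : c.p (i, (a : UnitAddCircle)) ∈ range r.e := ⟨(0, 0), h5.symm⟩
        filter_upwards [r.he.isOpen_range.mem_nhds h5'] with x' hx' hD y hy
        obtain ⟨⟨u, v⟩, rfl⟩ := hx'
        rw [r.mem_D] at hD
        push Not at hD
        rcases lt_or_gt_of_ne hD.1 with hu | hu
        · rcases lt_or_gt_of_ne hD.2 with hv | hv
          · rw [w3 _ hu hv y hy, hκ3]
          · rw [w2 _ hu hv y hy, hκ2]
        · rcases lt_or_gt_of_ne hD.2 with hv | hv
          · rw [w4 _ hu hv y hy, hκ4]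
          · rw [w1 _ hu hv y hy]
      rcases lt_trichotomy (c.t (j, (b : UnitAddCircle))) (c.t (i, (a : UnitAddCircle)))
        with h | h | h
      · exact key i j a b h1.symm h2.symm h hz
      · exact absurd (hs.hd.inj _ _ h2 h) h1
      · have hz' := hz
        have h2' : c.p (j, (b : UnitAddCircle)) = c.p (i, (a : UnitAddCircle)) := h2
        rw [← h2'] at hz' ⊢
        exact key j i b a h1 h2 h hz'
    · obtain ⟨r, α, hα, hαi, hα0, hra⟩ := hs.hd.exists_reg hcr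
      obtain ⟨k1, k2, h1, h2, h3⟩ := r.values hs.hR hs.hG (fun x hx => (hs.hlink x).1 hx)
        hs.hT hs.hB
      have h5 : c.p (i, (a : UnitAddCircle)) = r.e (0, 0) := by
        rw [← r.hpa, hra, hα0]
      have h6 : c.p (i, (a : UnitAddCircle)) ∉ c.p '' c.crossing := by
        rintro ⟨τ, hτ, hτ2⟩
        by_cases he : τ = (i, (a : UnitAddCircle))
        · rw [he] at hτ; exact hcr hτ
        · exact hcr ⟨τ, he, hτ2⟩
      have h7 := hz.self_of_nhds ⟨_, rfl⟩ h6
      rw [h5, hs.cval_eq (h1 0)] at h7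
      have h8 : k1 + k2 = 0 := by simpa using h7
      have h9 : |k2| = |k1| := by
        have : k2 = -k1 := by linarith
        rw [this, abs_neg]
      refine ⟨|k1|, ?_⟩
      have h5' : c.p (i, (a : UnitAddCircle)) ∈ range r.e := ⟨(0, 0), h5.symm⟩
      filter_upwards [r.he.isOpen_range.mem_nhds h5'] with x' hx' hD y hy
      obtain ⟨q, rfl⟩ := hx'
      rw [r.mem_D] at hD
      rcases lt_or_gt_of_ne hD with h | h
      · rw [h3 q h y hy, h9]
      · rw [h2 q h y hy]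
  · obtain ⟨κ, hκ⟩ := hs.near_off hx
    exact ⟨κ, hκ.mono fun x' h _ => h⟩

/-- The complement of the projection is dense. -/
theorem Setup.frequently_off (hs : c.Setup G R θ fT fB) (x : F) :
    ∃ᶠ x' in 𝓝 x, x' ∉ range c.p := by
  by_cases hx : x ∈ range c.p
  · obtain ⟨⟨i, y⟩, rfl⟩ := hx
    obtain ⟨a, rfl⟩ := QuotientAddGroup.mk_surjective y
    by_cases hcr : (i, (a : UnitAddCircle)) ∈ c.crossing
    · obtain ⟨⟨j, y'⟩, h1, h2⟩ := hcr
      obtain ⟨b, rfl⟩ := QuotientAddGroup.mk_surjective y'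
      obtain ⟨e, α, β, he, hα, hβ, hα0, hβ0, e1, e2, e3⟩ := hs.hd.cross i j a b h1.symm h2.symm
      have h5 : c.p (i, (a : UnitAddCircle)) = e (0, 0) := by
        rw [← e1, hα0]
      rw [h5]
      have ht : Tendsto (fun u : ℝ => e (u, u)) (𝓝[≠] 0) (𝓝 (e (0, 0))) := by
        have : Tendsto (fun u : ℝ => e (u, u)) (𝓝 0) (𝓝 (e (0, 0))) :=
          (he.continuous.comp (continuous_id.prodMk continuous_id)).tendsto 0
        exact this.mono_left nhdsWithin_le_nhds
      apply ht.frequently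
      apply Eventually.frequently
      filter_upwards [self_mem_nhdsWithin] with u hu
      rintro ⟨τ, hτ⟩
      rcases e3 τ ⟨_, hτ.symm⟩ with ⟨u', rfl⟩ | ⟨v', rfl⟩
      · rw [e1] at hτ
        have := he.injective hτ
        simp only [Prod.mk.injEq] at this
        exact hu this.2.symm
      · rw [e2] at hτ
        have := he.injective hτ
        simp only [Prod.mk.injEq] at this
        exact hu this.1.symm
    · obtain ⟨r, α, hα, hαi, hα0, hra⟩ := hs.hd.exists_reg hcr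
      have h5 : c.p (i, (a : UnitAddCircle)) = r.e (0, 0) := by
        rw [← r.hpa, hra, hα0]
      rw [h5]
      have ht : Tendsto (fun u : ℝ => r.e (0, u)) (𝓝[≠] 0) (𝓝 (r.e (0, 0))) := by
        have : Tendsto (fun u : ℝ => r.e (0, u)) (𝓝 0) (𝓝 (r.e (0, 0))) :=
          (r.he.continuous.comp (continuous_const.prodMk continuous_id)).tendsto 0
        exact this.mono_left nhdsWithin_le_nhds
      apply ht.frequently
      apply Eventually.frequently
      filter_upwards [self_mem_nhdsWithin] with u hu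
      rw [r.mem_D]
      exact hu
  · have h : ∀ᶠ x' in 𝓝 x, x' ∉ range c.p := isClosed_range_p.isOpen_compl.mem_nhds hx
    exact h.frequently

variable [ConnectedSpace F]

/-- If the projection is connected and the difference vanishes on both sides of one regular
point then the two lifts agree. -/
theorem Setup.kk_zero (hs : c.Setup G R θ fT fB) (hpre : IsPreconnected (range c.p))
    {i : Fin n} {a : ℝ} (hcr : (i, (a : UnitAddCircle)) ∉ c.crossing)
    (r : RegChart c) (hr : r.e (0, 0) = c.p (i, (a : UnitAddCircle)))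
    {y1 y2 : ℂ} (hy1 : y1 ^ 2 = G (c.h (r.e (0, 1), R))) (hy2 : y2 ^ 2 = G (c.h (r.e (0, -1), R)))
    (hk1 : c.kk R fT fB (r.e (0, 1), y1) = 0) (hk2 : c.kk R fT fB (r.e (0, -1), y2) = 0) :
    ∀ x ∉ range c.p, ∀ y : ℂ, y ^ 2 = G (c.h (x, R)) → c.kk R fT fB (x, y) = 0 := by
  obtain ⟨k1, k2, v1, v2, v3⟩ := r.values hs.hR hs.hG (fun x hx => (hs.hlink x).1 hx) hs.hT hs.hB
  have e1 : k1 = 0 := by
    have := v2 (0, 1) (by norm_num) y1 hy1
    rw [hk1, abs_zero] at this
    exact abs_eq_zero.1 this.symm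
  have e2 : k2 = 0 := by
    have := v3 (0, -1) (by norm_num) y2 hy2
    rw [hk2, abs_zero] at this
    exact abs_eq_zero.1 this.symm
  have hzero : ∀ x ∈ range c.p, ∀ᶠ x' in 𝓝 x, x' ∈ range c.p → x' ∉ c.p '' c.crossing →
      c.cval G R fT fB x' = 0 := by
    by_contra hcon
    obtain ⟨x1, hcon⟩ := not_forall.1 hcon
    obtain ⟨hx1, hx1'⟩ := not_forall.1 hcon
    have hdich : ∀ x ∈ range c.p, (∀ᶠ x' in 𝓝 x, x' ∈ range c.p → x' ∉ c.p '' c.crossing →
        c.cval G R fT fB x' = 0) ∨ (∀ᶠ x' in 𝓝 x, x' ∈ range c.p → x' ∉ c.p '' c.crossing →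
        c.cval G R fT fB x' ≠ 0) := by
      intro x hx
      obtain ⟨A, hA⟩ := hs.near_D hx
      by_cases h : A = 0
      · left; rwa [h] at hA
      · right
        filter_upwards [hA] with x' h1 h2 h3
        rw [h1 h2 h3]
        exact h
    have ho1 : IsOpen {x | ∀ᶠ x' in 𝓝 x, x' ∈ range c.p → x' ∉ c.p '' c.crossing →
        c.cval G R fT fB x' = 0} := isOpen_setOfPred_eventually_nhds
    have ho2 : IsOpen {x | ∀ᶠ x' in 𝓝 x, x' ∈ range c.p → x' ∉ c.p '' c.crossing →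
        c.cval G R fT fB x' ≠ 0} := isOpen_setOfPred_eventually_nhds
    have hq0 : c.p (i, (a : UnitAddCircle)) ∈ {x | ∀ᶠ x' in 𝓝 x, x' ∈ range c.p →
        x' ∉ c.p '' c.crossing → c.cval G R fT fB x' = 0} := by
      filter_upwards [(hs.near_reg hcr).2] with x' h1 h2 _
      rw [h1 h2, ← hr, hs.cval_eq (v1 0), e1, e2]
      norm_num
    obtain ⟨x, hx, hxa, hxb⟩ := hpre _ _ ho1 ho2 (fun x hx => hdich x hx)
      ⟨_, ⟨_, rfl⟩, hq0⟩ ⟨x1, hx1, (hdich x1 hx1).resolve_left hx1'⟩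
    obtain ⟨x', ⟨h1, h2⟩, h3⟩ := ((hs.frequently_D hx).and_eventually (hxa.and hxb)).exists
    exact h3.2 h1 h2 (h3.1 h1 h2)
  -- the absolute value is locally constant on the whole surface
  have hall := hs.near_all hzero
  have ho1 : IsOpen {x : F | ∀ᶠ x' in 𝓝 x, x' ∉ range c.p → ∀ y : ℂ,
      y ^ 2 = G (c.h (x', R)) → c.kk R fT fB (x', y) = 0} := isOpen_setOfPred_eventually_nhds
  have ho2 : IsOpen {x : F | ∀ᶠ x' in 𝓝 x, x' ∉ range c.p → ∀ y : ℂ,
      y ^ 2 = G (c.h (x', R)) → c.kk R fT fB (x', y) ≠ 0} := isOpen_setOfPred_eventually_nhds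
  have hdich : ∀ x : F, (∀ᶠ x' in 𝓝 x, x' ∉ range c.p → ∀ y : ℂ,
      y ^ 2 = G (c.h (x', R)) → c.kk R fT fB (x', y) = 0) ∨ (∀ᶠ x' in 𝓝 x, x' ∉ range c.p →
      ∀ y : ℂ, y ^ 2 = G (c.h (x', R)) → c.kk R fT fB (x', y) ≠ 0) := by
    intro x
    obtain ⟨κ, hκ⟩ := hall x
    by_cases h : κ = 0
    · left
      filter_upwards [hκ] with x' h1 h2 y hy
      have := h1 h2 y hy
      rw [h] at this
      exact abs_eq_zero.1 this
    · right
      filter_upwards [hκ] with x' h1 h2 y hy h3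
      have := h1 h2 y hy
      rw [h3, abs_zero] at this
      exact h this.symm
  have hx0 : r.e (0, 0) ∈ {x : F | ∀ᶠ x' in 𝓝 x, x' ∉ range c.p → ∀ y : ℂ,
      y ^ 2 = G (c.h (x', R)) → c.kk R fT fB (x', y) = 0} := by
    have h5' : r.e (0, 0) ∈ range r.e := ⟨_, rfl⟩
    filter_upwards [r.he.isOpen_range.mem_nhds h5'] with x' hx' hD y hy
    obtain ⟨q, rfl⟩ := hx'
    rw [r.mem_D] at hD
    rcases lt_or_gt_of_ne hD with h | h
    · have := v3 q h y hy
      rw [e2, abs_zero] at this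
      exact abs_eq_zero.1 this
    · have := v2 q h y hy
      rw [e1, abs_zero] at this
      exact abs_eq_zero.1 this
  have hpre' : IsPreconnected (univ : Set F) := isPreconnected_univ
  have hall2 : ∀ x : F, ∀ᶠ x' in 𝓝 x, x' ∉ range c.p → ∀ y : ℂ,
      y ^ 2 = G (c.h (x', R)) → c.kk R fT fB (x', y) = 0 := by
    by_contra hcon
    obtain ⟨x1, hx1⟩ := not_forall.1 hcon
    obtain ⟨x, _, hxa, hxb⟩ := hpre' _ _ ho1 ho2 (fun x _ => hdich x)
      ⟨_, mem_univ _, hx0⟩ ⟨x1, mem_univ _, (hdich x1).resolve_left hx1⟩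
    obtain ⟨x', h1, h3⟩ := ((hs.frequently_off x).and_eventually (hxa.and hxb)).exists
    obtain ⟨y, hy⟩ := IsAlgClosed.exists_pow_nat_eq (G (c.h (x', R))) (n := 2) (by norm_num)
    exact h3.2 h1 y hy (h3.1 h1 y hy)
  intro x hx
  exact (hall2 x).self_of_nhds hx

end

end Config

end Pool.Agent.Lib.MP_55d555_gt
end
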